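import Pool.Agent.P.MP_bf3635_an.GMain

/-! Definitions and small tools for the Helson set whose radical algebra is not amenable. -/

set_option autoImplicit false
set_option linter.unusedSectionVars false
set_option linter.dupNamespace false

noncomputable section

namespace Pool.Agent.P.MP_bf3635_an.N

open Classical Filter Topology Pool.Agent.P.MP_bf3635_an.Ev

/-- a letter: two independent steps -/
abbrev Let : Type := Fin 3 × Fin 3

/-- the step `-1`, `0` or `1` -/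
def val3 (i : Fin 3) : ℤ := (i : ℤ) - 1

/-- the law of a step -/
def nu3 (q : ℝ) (i : Fin 3) : ℝ := if i = 1 then 1 - q else q / 2

/-- the product law -/
def wt3 {N : ℕ} (q q' : ℝ) (ω : Fin N → Let) : ℝ := ∏ c, nu3 q (ω c).1 * nu3 q' (ω c).2

/-- first step plus `d` times the second step -/
def kd {N : ℕ} (d : ℤ) (ω : Fin N → Let) : Fin N → ℤ := fun c => val3 (ω c).1 + d * val3 (ω c).2

/-- the second step -/
def ld {N : ℕ} (ω : Fin N → Let) : Fin N → ℤ := fun c => val3 (ω c).2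

/-- average of the coordinates -/
def avz (ζ : ℂ) {N : ℕ} (k : Fin N → ℤ) : ℂ := (N : ℂ)⁻¹ * ∑ c, ζ ^ k c

/-- the two levels -/
def mm (ζ : ℂ) (b : Bool) : ℝ := if b then 1 - (1 - ζ.re) / 4 else (1 - (1 - ζ.re) / 4) ^ 2

/-- the tolerance -/
def th (ζ : ℂ) : ℝ := (mm ζ true - mm ζ false) / 32

/-- the allowed points of a block -/
def BB (ζ : ℂ) (N M : ℕ) (b : Bool) : Finset (Fin N → ℤ) :=
  (Fintype.piFinset fun _ => Finset.Icc (-(M + 1) : ℤ) (M + 1)).filter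
    fun k => ‖avz ζ k - mm ζ b‖ ≤ th ζ

/-- what is used about a block -/
structure IsBlk (ζ : ℂ) (M : ℕ) (ε : ℝ) (N : ℕ) : Prop where
  pos : 0 < N
  good : ∑ ω : Fin N → Let with ¬ (kd 0 ω ∈ BB ζ N M true ∧ kd 1 ω ∈ BB ζ N M false),
    wt3 (1 / 4) (1 / 4) ω ≤ ε
  app : ∀ (b : Bool) (d : ℤ), |d| ≤ M → ∃ h : (Fin N → Let) → ℝ,
    (∀ ω, h ω ≠ 0 → kd d ω ∈ BB ζ N M b) ∧ ∀ t : Fin N → ℂ, (∀ c, ‖t c‖ = 1) →
      ‖∑ ω, ((wt3 (1 / 4) (1 / 4) ω - h ω : ℝ) : ℂ) * ∏ c, t c ^ kd d ω c‖ ≤ ε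

theorem IsBlk.mono {ζ : ℂ} {M N : ℕ} {ε ε' : ℝ} (h : IsBlk ζ M ε N) (e : ε ≤ ε') :
    IsBlk ζ M ε' N :=
  ⟨h.pos, h.good.trans e, fun b d hd => (h.app b d hd).imp fun _ k =>
    ⟨k.1, fun t ht => (k.2 t ht).trans e⟩⟩

theorem nu3_nonneg {q : ℝ} (h0 : 0 ≤ q) (h1 : q ≤ 1) (i : Fin 3) : 0 ≤ nu3 q i := by
  unfold nu3
  split_ifs <;> linarith

theorem wt3_nonneg {N : ℕ} {q q' : ℝ} (h0 : 0 ≤ q) (h1 : q ≤ 1) (h0' : 0 ≤ q') (h1' : q' ≤ 1)
    (ω : Fin N → Let) : 0 ≤ wt3 q q' ω :=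
  Finset.prod_nonneg fun _ _ => mul_nonneg (nu3_nonneg h0 h1 _) (nu3_nonneg h0' h1' _)

theorem wt3_prod {N : ℕ} (q q' : ℝ) (φ : Fin N → Let → ℂ) :
    ∑ ω : Fin N → Let, (wt3 q q' ω : ℂ) * ∏ c, φ c (ω c) =
      ∏ c, ∑ a : Let, ((nu3 q a.1 * nu3 q' a.2 : ℝ) : ℂ) * φ c a := by
  rw [Finset.prod_univ_sum, Fintype.piFinset_univ]
  refine Finset.sum_congr rfl fun ω _ => ?_
  rw [wt3, Complex.ofReal_prod, ← Finset.prod_mul_distrib]

theorem nu3_sum (q q' : ℝ) : ∑ a : Let, nu3 q a.1 * nu3 q' a.2 = 1 := by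
  simp [Fintype.sum_prod_type, Fin.sum_univ_three, nu3]
  ring

theorem wt3_sum (N : ℕ) (q q' : ℝ) : ∑ ω : Fin N → Let, wt3 q q' ω = 1 := by
  have := wt3_prod (N := N) q q' fun _ _ => 1
  simp only [Finset.prod_const_one, mul_one, ← Complex.ofReal_sum, nu3_sum,
    Complex.ofReal_one] at this
  exact_mod_cast this

theorem nu3_ft (q q' : ℝ) (d : ℤ) {t : ℂ} (ht : ‖t‖ = 1) :
    ∑ a : Let, ((nu3 q a.1 * nu3 q' a.2 : ℝ) : ℂ) * t ^ (val3 a.1 + d * val3 a.2) =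
      (((1 - q * (1 - t.re)) * (1 - q' * (1 - (t ^ d).re)) : ℝ) : ℂ) := by
  have h0 : t ≠ 0 := by rintro rfl; simp at ht
  have key : ∀ (p : ℝ) {s : ℂ}, ‖s‖ = 1 →
      ∑ i : Fin 3, (nu3 p i : ℂ) * s ^ val3 i = ((1 - p * (1 - s.re) : ℝ) : ℂ) := by
    intro p s hs
    have e : s⁻¹ = 2 * s.re - s := by
      rw [Complex.inv_eq_conj hs, eq_sub_iff_add_eq, add_comm, Complex.add_conj]
      push_cast
      rfl
    simp [Fin.sum_univ_three, nu3, val3, e]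
    ring
  rw [Complex.ofReal_mul, ← key q ht, ← key q' (s := t ^ d) (by rw [norm_zpow, ht, one_zpow]),
    Finset.sum_mul_sum, Fintype.sum_prod_type]
  refine Finset.sum_congr rfl fun i _ => Finset.sum_congr rfl fun j _ => ?_
  rw [zpow_add₀ h0, zpow_mul]
  push_cast
  ring

theorem wt3_ft {N : ℕ} (q q' : ℝ) (d : ℤ) (t : Fin N → ℂ) (ht : ∀ c, ‖t c‖ = 1) :
    ∑ ω : Fin N → Let, (wt3 q q' ω : ℂ) * ∏ c, t c ^ kd d ω c =
      ((∏ c, (1 - q * (1 - (t c).re)) * (1 - q' * (1 - (t c ^ d).re)) : ℝ) : ℂ) := by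
  rw [Complex.ofReal_prod]
  exact (wt3_prod q q' fun c a => t c ^ (val3 a.1 + d * val3 a.2)).trans
    (Finset.prod_congr rfl fun c _ => nu3_ft q q' d (ht c))

theorem re_lt_one {ζ : ℂ} (h1 : ‖ζ‖ = 1) (h2 : ζ ≠ 1) : -1 ≤ ζ.re ∧ ζ.re < 1 := by
  have h := abs_le.1 ((Complex.abs_re_le_norm ζ).trans h1.le)
  refine ⟨h.1, lt_of_le_of_ne h.2 fun e => h2 ?_⟩
  have h3 := Complex.sq_norm ζ
  rw [h1, Complex.normSq_apply, e] at h3
  exact Complex.ext e (by simpa using mul_self_eq_zero.1 (show ζ.im * ζ.im = 0 by linarith))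

theorem th_pos {ζ : ℂ} (h1 : ‖ζ‖ = 1) (h2 : ζ ≠ 1) : 0 < th ζ := by
  obtain ⟨a, b⟩ := re_lt_one h1 h2
  simp only [th, mm, if_true, Bool.false_eq_true, if_false]
  nlinarith

theorem mem_BB {ζ : ℂ} {N M : ℕ} {b : Bool} {k : Fin N → ℤ} : k ∈ BB ζ N M b ↔
    (∀ c, |k c| ≤ M + 1) ∧ ‖avz ζ k - mm ζ b‖ ≤ th ζ := by
  simp [BB, abs_le]

variable {G : Type} [CommGroup G] [TopologicalSpace G] [DiscreteTopology G]

/-- the point with coordinates `k` -/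
def pw {N : ℕ} (a : Fin N → PontryaginDual G) (k : Fin N → ℤ) : PontryaginDual G :=
  ∏ c, a c ^ k c

theorem pw_kd {N : ℕ} (a : Fin N → PontryaginDual G) (d : ℤ) (ω : Fin N → Let) :
    pw a (kd d ω) = pw a (kd 0 ω) * pw a (ld ω) ^ d := by
  simp only [pw, kd, ld, ← Finset.prod_zpow, ← Finset.prod_mul_distrib, ← zpow_mul, ← zpow_add,
    zero_mul, add_zero, mul_comm d]

theorem evg_pw {N : ℕ} (a : Fin N → PontryaginDual G) (k : Fin N → ℤ) (g : G) :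
    evg g (pw a k) = ∏ c, evg g (a c) ^ k c := by
  rw [pw, map_prod]
  exact Finset.prod_congr rfl fun _ _ => map_zpow _ _ _

/-- functions vanishing on the points of `P` off `D` are small in mean on points of `P` in `D` -/
def Good (P : Finset (PontryaginDual G)) (D : PontryaginDual G → Prop) (η : ℝ) : Prop :=
  0 ≤ η ∧ ∃ (ι : Type) (_ : Fintype ι) (pt : ι → PontryaginDual G) (μ : ι → ℝ),
    (∀ i, 0 ≤ μ i) ∧ (∀ i, μ i ≠ 0 → pt i ∈ P ∧ D (pt i)) ∧ 0 < ∑ i, μ i ∧ ∀ f : L1 G,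
      (∀ x ∈ P, ¬ D x → fourier f x = 0) →
        ∑ i, μ i * ‖fourier f (pt i)‖ ≤ η * (∑ i, μ i) * ‖f‖

theorem Good.mono {P : Finset (PontryaginDual G)} {D : PontryaginDual G → Prop} {η η' : ℝ}
    (h : Good P D η) (e : η ≤ η') : Good P D η' := by
  obtain ⟨h0, ι, _, pt, μ, h1, h2, h3, h4⟩ := h
  exact ⟨h0.trans e, ι, _, pt, μ, h1, h2, h3, fun f hf => (h4 f hf).trans (by gcongr)⟩

/-- a stage: a finite set of centres and a small neighbourhood of the origin -/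
structure Sg (H : Subgroup (PontryaginDual G)) where
  P : Finset (PontryaginDual G)
  U : Set (PontryaginDual G)
  opn : IsOpen U
  one : 1 ∈ U
  ne : P.Nonempty
  sub : ∀ x ∈ P, x ∈ H
  sep : ∀ x ∈ P, ∀ y ∈ P, ∀ u ∈ U, ∀ v ∈ U, x * u = y * v → x = y

variable {H : Subgroup (PontryaginDual G)}

/-- constant on every cell -/
def Sg.Con (s : Sg H) {α : Type} (F : PontryaginDual G → α) : Prop :=
  ∀ x ∈ s.P, ∀ u ∈ s.U, F (x * u) = F x

/-- true on every cell -/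
def Sg.Hold (s : Sg H) (p : PontryaginDual G → Prop) : Prop := ∀ x ∈ s.P, ∀ u ∈ s.U, p (x * u)

/-- refinement -/
def Sg.Ref (s s' : Sg H) : Prop :=
  ∀ x' ∈ s'.P, ∃ x ∈ s.P, ∃ y, x' = x * y ∧ ∀ u ∈ closure s'.U, y * u ∈ s.U

/-- the mean bounds survive, with a small loss -/
def Sg.Keep (s s' : Sg H) (ε : ℝ) : Prop :=
  ∀ (D : PontryaginDual G → Prop) (η : ℝ), s.Con D → η + ε ≤ 1 → Good s.P D η →
    Good s'.P D (η + ε)

theorem Sg.Ref.hold {s s' : Sg H} (h : s.Ref s') {p : PontryaginDual G → Prop} (hp : s.Hold p) :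
    s'.Hold p := fun x' hx' u hu => by
  obtain ⟨x, hx, y, rfl, hy⟩ := h x' hx'
  rw [mul_assoc]
  exact hp x hx _ (hy u (subset_closure hu))

theorem Sg.Ref.con {s s' : Sg H} (h : s.Ref s') {α : Type} {F : PontryaginDual G → α}
    (hF : s.Con F) : s'.Con F := fun x' hx' u hu => by
  obtain ⟨x, hx, y, rfl, hy⟩ := h x' hx'
  rw [mul_assoc, hF x hx _ (hy u (subset_closure hu)),
    hF x hx y (by simpa using hy 1 (subset_closure s'.one))]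

theorem Sg.Ref.trans {s s' s'' : Sg H} (h : s.Ref s') (h' : s'.Ref s'') : s.Ref s'' :=
  fun x'' hx'' => by
    obtain ⟨x', hx', y', rfl, hy'⟩ := h' x'' hx''
    obtain ⟨x, hx, y, rfl, hy⟩ := h x' hx'
    exact ⟨x, hx, y * y', mul_assoc _ _ _, fun u hu => by
      rw [mul_assoc]; exact hy _ (subset_closure (hy' u hu))⟩

theorem Sg.Keep.trans {s s' s'' : Sg H} {ε ε' : ℝ} (r : s.Ref s') (h : s.Keep s' ε)
    (h' : s'.Keep s'' ε') (e : 0 ≤ ε') : s.Keep s'' (ε + ε') := fun D η c l g => by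
  rw [← add_assoc]
  exact h' D _ (r.con c) (by linarith) (h D η c (by linarith) g)

theorem Sg.keep_of_eq {s s' : Sg H} (h : s'.P = s.P) {ε : ℝ} (e : 0 ≤ ε) : s.Keep s' ε :=
  fun _ _ _ _ g => h ▸ g.mono (by linarith)

theorem exists_sg (P : Finset (PontryaginDual G)) (h0 : P.Nonempty) (h1 : ∀ x ∈ P, x ∈ H)
    {W : Set (PontryaginDual G)} (hW : W ∈ 𝓝 1) : ∃ s : Sg H, s.P = P ∧ closure s.U ⊆ W := by
  have h3 : ∀ᶠ p : PontryaginDual G × PontryaginDual G in 𝓝 (1, 1), ∀ x ∈ P,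
      ∀ y ∈ P, x * p.1 = y * p.2 → x = y :=
    (eventually_all_finset _).2 fun x _ => (eventually_all_finset _).2 fun y _ => by
      by_cases e : x = y
      · exact .of_forall fun _ _ => e
      · have : IsOpen {p : PontryaginDual G × PontryaginDual G | x * p.1 ≠ y * p.2} :=
          isOpen_ne_fun (by fun_prop) (by fun_prop)
        filter_upwards [this.mem_nhds (by simpa using e)] with p hp a using (hp a).elim
  obtain ⟨A, hA, B, hB, h4⟩ := mem_nhds_prod_iff.1 h3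
  obtain ⟨t, t1, t2, t3⟩ := exists_mem_nhds_isClosed_subset (inter_mem hW (inter_mem hA hB))
  refine ⟨⟨P, interior t, isOpen_interior, mem_interior_iff_mem_nhds.2 t1, h0, h1,
    fun x hx y hy u hu v hv => h4 (Set.mk_mem_prod (t3 (interior_subset hu)).2.1
      (t3 (interior_subset hv)).2.2) x hx y hy⟩, rfl, fun u hu => ?_⟩
  exact (t3 (closure_minimal interior_subset t2 hu)).1

theorem Sg.exists_shrink (s : Sg H) {W : Set (PontryaginDual G)} (hW : W ∈ 𝓝 1) :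
    ∃ s' : Sg H, s.Ref s' ∧ s'.P = s.P ∧ s'.U ⊆ W := by
  obtain ⟨s', h1, h2⟩ := exists_sg s.P s.ne s.sub (inter_mem hW (s.opn.mem_nhds s.one))
  refine ⟨s', fun x hx => ⟨x, by rwa [h1] at hx, 1, (mul_one x).symm, fun u hu => ?_⟩, h1,
    fun u hu => (h2 (subset_closure hu)).1⟩
  rw [one_mul]
  exact (h2 hu).2

theorem Sg.exists_con (s : Sg H) {α : Type} {F : PontryaginDual G → α}
    (h : ∀ x ∈ s.P, ∀ᶠ γ in 𝓝 x, F γ = F x) : ∃ s' : Sg H, s.Ref s' ∧ s'.P = s.P ∧ s'.Con F := by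
  have h3 : ∀ᶠ u in 𝓝 (1 : PontryaginDual G), ∀ x ∈ s.P, F (x * u) = F x :=
    (eventually_all_finset _).2 fun x hx =>
      ((continuous_const_mul x).tendsto' 1 x (mul_one x)).eventually (h x hx)
  obtain ⟨s', a, b, c⟩ := s.exists_shrink h3
  exact ⟨s', a, b, fun x hx u hu => c hu x (by rwa [b] at hx)⟩

theorem Sg.exists_local (s : Sg H) (g : G) {ε : ℝ} (hε : 0 < ε) : ∃ s' : Sg H, s.Ref s' ∧
    s'.P = s.P ∧ ∃ φ : L1 G, ‖φ - ch g‖ ≤ ε ∧ s'.Con (fourier φ) := by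
  obtain ⟨φ, h1, h2⟩ := exists_loc ε hε g s.P
  obtain ⟨s', a, b, c⟩ := s.exists_con h2
  exact ⟨s', a, b, φ, h1, c⟩

/-- what is used about the compact set -/
structure Pack2 (G : Type) [CommGroup G] [TopologicalSpace G] where
  E : Set (PontryaginDual G)
  χ : ℕ → G
  C : ℝ
  Fac : ℕ → Submodule ℂ (L1 G)
  cpt : IsCompact E
  pos : 0 < C
  mono : Monotone Fac
  rep : ∀ g, ∃ i, ch g - ch (χ i) ∈ (idealJ fourierChar E).closure
  app : ∀ i, ∀ θ > 0, ∃ m, ∃ φ ∈ Fac m, ‖φ - ch (χ i)‖ ≤ θ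
  hel : ∀ m, ∀ φ ∈ Fac m, ∀ ρ > 0, (∀ γ ∈ E, ‖fourier φ γ‖ ≤ ρ) →
    ∃ a : L1 G, ‖a‖ ≤ C * ρ ∧ ∀ γ ∈ E, ‖fourier a γ - fourier φ γ‖ ≤ ρ / 4
  bad : ∀ η > 0, ∃ e : L1 G, (∀ γ ∈ E, ‖fourier e γ‖ ≤ 1) ∧ ∀ f u : L1 G,
    (∀ᶠ γ in 𝓝ˢ E, fourier f γ = fourier e γ * fourier u γ) → (∀ γ ∈ E, fourier u γ = 1) →
      1 ≤ η * ‖f‖

end Pool.Agent.P.MP_bf3635_an.N
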