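import Pool.Agent.P.MP_bf3635_an.N.Iface

/-! Step BLK. -/

set_option autoImplicit false

noncomputable section

namespace Pool.Agent.P.MP_bf3635_an.N

open Classical Filter Topology Pool.Agent.P.MP_bf3635_an.Ev

theorem blkw_val (i : Fin 3) : |val3 i| ≤ 1 := by
  fin_cases i <;> simp [val3]

theorem blkw_kd {N M : ℕ} {d : ℤ} (hd : |d| ≤ M) (ω : Fin N → Let) (c : Fin N) :
    |kd d ω c| ≤ M + 1 := by
  have a := blkw_val (ω c).1
  have b := blkw_val (ω c).2
  calc |kd d ω c| ≤ |val3 (ω c).1| + |d| * |val3 (ω c).2| := by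
        rw [← abs_mul]; exact abs_add_le _ _
    _ ≤ 1 + |d| * 1 := by gcongr
    _ ≤ M + 1 := by linarith

theorem blkw_re {t : ℂ} (h : ‖t‖ = 1) : 0 ≤ 1 - t.re ∧ 1 - t.re ≤ 2 := by
  have := abs_le.1 ((Complex.abs_re_le_norm t).trans h.le)
  constructor <;> linarith [this.1, this.2]

theorem blkw_off (hCONC : S_CONC) {ζ : ℂ} (h1 : ‖ζ‖ = 1) {N M : ℕ} (hN : 0 < N) {b : Bool}
    {d : ℤ} (hd : |d| ≤ M) {q q' θ : ℝ} (h0 : 0 ≤ q) (hq : q ≤ 1) (h0' : 0 ≤ q') (hq' : q' ≤ 1)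
    (hθ : 0 < θ)
    (hm : |(1 - q * (1 - ζ.re)) * (1 - q' * (1 - (ζ ^ d).re)) - mm ζ b| + θ ≤ th ζ) :
    ∑ ω : Fin N → Let with kd d ω ∉ BB ζ N M b, wt3 q q' ω ≤ 4 / (N * θ ^ 2) := by
  refine le_trans ?_ (hCONC N q q' θ ζ d hN h0 hq h0' hq' hθ h1)
  refine Finset.sum_le_sum_of_subset_of_nonneg (fun ω hω => ?_)
    fun ω _ _ => wt3_nonneg h0 hq h0' hq' ω
  simp only [Finset.mem_filter, Finset.mem_univ, true_and] at hω ⊢
  rw [mem_BB, not_and] at hω
  have h2 := not_le.1 (hω (blkw_kd hd ω))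
  have h3 := norm_sub_le_norm_sub_add_norm_sub (avz ζ (kd d ω))
    (((1 - q * (1 - ζ.re)) * (1 - q' * (1 - (ζ ^ d).re)) : ℝ) : ℂ) (mm ζ b : ℂ)
  rw [← Complex.ofReal_sub, Complex.norm_real, Real.norm_eq_abs] at h3
  linarith

theorem blkw_mean {p s s' z δ : ℝ} (p0 : 1 / 4 ≤ p) (p1 : p ≤ 1 / 2) (s0 : 0 ≤ s) (s1 : s ≤ 2)
    (t0 : 0 ≤ s') (t1 : s' ≤ 2) (z0 : 1 - δ ≤ z) (z1 : z ≤ 1) (d1 : δ ≤ 1) :
    |(1 - (1 / 4 + (p - 1 / 4) * z) * s) * (1 - (1 - z) / 4 * s') - (1 - p * s)| ≤ δ := by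
  have a0 : 0 ≤ (p - 1 / 4) * s := mul_nonneg (by linarith) s0
  have a1 : (p - 1 / 4) * s ≤ 1 / 2 := by nlinarith
  have b0 : 0 ≤ (p - 1 / 4) * s * z := mul_nonneg a0 (by linarith)
  have b1 : (p - 1 / 4) * s * z ≤ 1 / 2 := by nlinarith
  have c0 : 0 ≤ (p - 1 / 4) * s * (1 - z) := mul_nonneg a0 (by linarith)
  have c1 : (p - 1 / 4) * s * (1 - z) ≤ δ / 2 := by nlinarith
  have e0 : 0 ≤ (1 - z) / 4 * s' := mul_nonneg (by linarith) t0
  have e1 : (1 - z) / 4 * s' ≤ δ / 2 := by nlinarith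
  have f0 : 0 ≤ 1 - (1 / 4 + (p - 1 / 4) * z) * s := by nlinarith
  have f1 : 1 - (1 / 4 + (p - 1 / 4) * z) * s ≤ 1 := by nlinarith
  have g0 := mul_nonneg f0 e0
  have g1 := mul_le_mul_of_nonneg_right f1 e0
  rw [abs_le]
  constructor <;> nlinarith

theorem p_BLK (hLAM : S_LAM) (hCONC : S_CONC) :
    S_BLK := by
  intro ζ h1 h2 M hM ε hε
  have hθ := th_pos h1 h2
  obtain ⟨r1, r2⟩ := re_lt_one h1 h2
  have hθ1 : th ζ ≤ 1 := by
    simp only [th, mm, if_true, Bool.false_eq_true, if_false]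
    nlinarith
  obtain ⟨n, c, z, hz, hl⟩ := hLAM (th ζ / 2) (by positivity) (ε / 2) (by positivity)
  have hS : 0 ≤ ∑ i, |c i| := Finset.sum_nonneg fun _ _ => abs_nonneg _
  obtain ⟨N, hN⟩ := exists_nat_gt (32 * (1 + ∑ i, |c i|) / (ε * th ζ ^ 2))
  have hN0 : (0 : ℝ) < N := lt_of_le_of_lt (by positivity) hN
  have hN1 : 0 < N := by exact_mod_cast hN0
  rw [div_lt_iff₀ (by positivity)] at hN
  refine ⟨N, hN1, ?_, fun b d hd => ?_⟩
  · have a := blkw_off hCONC h1 hN1 (M := M) (b := true) (d := 0) (by simp) (q := 1 / 4)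
      (q' := 1 / 4) (by norm_num) (by norm_num) (by norm_num) (by norm_num) hθ
      (by simp [mm, div_eq_inv_mul])
    have a' := blkw_off hCONC h1 hN1 (M := M) (b := false) (d := 1) (by simpa using hM)
      (q := 1 / 4) (q' := 1 / 4) (by norm_num) (by norm_num) (by norm_num) (by norm_num) hθ
      (by simp [mm, div_eq_inv_mul, sq])
    have e : 4 / (N * th ζ ^ 2) ≤ ε / 2 := by
      rw [div_le_iff₀ (by positivity)]
      nlinarith
    refine le_trans ?_ ((add_le_add (a.trans e) (a'.trans e)).trans (by linarith))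
    rw [Finset.sum_filter, Finset.sum_filter, Finset.sum_filter, ← Finset.sum_add_distrib]
    refine Finset.sum_le_sum fun ω _ => ?_
    have w := wt3_nonneg (q := 1 / 4) (q' := 1 / 4) (by norm_num) (by norm_num) (by norm_num)
      (by norm_num) ω
    by_cases u : kd 0 ω ∈ BB ζ N M true <;> by_cases v : kd 1 ω ∈ BB ζ N M false <;>
      simp only [u, v, and_self, and_true, and_false, not_true, not_false_iff, if_true,
        if_false] <;> linarith
  · obtain ⟨p, p0, p1, pm⟩ : ∃ p : ℝ, 1 / 4 ≤ p ∧ p ≤ 1 / 2 ∧ mm ζ b = 1 - p * (1 - ζ.re) := by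
      cases b
      · refine ⟨1 / 2 - (1 - ζ.re) / 16, by linarith, by linarith, ?_⟩
        simp only [mm, Bool.false_eq_true, if_false]
        ring
      · refine ⟨1 / 4, le_rfl, by norm_num, ?_⟩
        simp only [mm, if_true]
        ring
    have hq : ∀ i, 0 ≤ 1 / 4 + (p - 1 / 4) * z i ∧ 1 / 4 + (p - 1 / 4) * z i ≤ 1 ∧
        0 ≤ (1 - z i) / 4 ∧ (1 - z i) / 4 ≤ 1 := fun i => by
      obtain ⟨a, b⟩ := hz i
      refine ⟨?_, ?_, by linarith, by linarith⟩ <;> nlinarith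
    set w : Fin n → (Fin N → Let) → ℝ := fun i =>
      wt3 (1 / 4 + (p - 1 / 4) * z i) ((1 - z i) / 4) with hw
    have w0 : ∀ i ω, 0 ≤ w i ω := fun i ω =>
      wt3_nonneg (hq i).1 (hq i).2.1 (hq i).2.2.1 (hq i).2.2.2 ω
    have off : ∀ i, ∑ ω : Fin N → Let with kd d ω ∉ BB ζ N M b, w i ω ≤
        4 / (N * (th ζ / 2) ^ 2) := fun i => by
      refine blkw_off hCONC h1 hN1 hd (hq i).1 (hq i).2.1 (hq i).2.2.1 (hq i).2.2.2
        (by positivity) ?_
      have k := blkw_re (t := ζ ^ d) (by rw [norm_zpow, h1, one_zpow])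
      have := blkw_mean p0 p1 (s := 1 - ζ.re) (by linarith) (by linarith) k.1 k.2 (hz i).1
        (hz i).2 (by linarith)
      rw [pm]
      linarith
    refine ⟨fun ω => if kd d ω ∈ BB ζ N M b then ∑ i, c i * w i ω else 0, fun ω h => ?_,
      fun t ht => ?_⟩
    · by_contra k
      exact h (if_neg k)
    have ht' : ∀ j, ‖t j ^ d‖ = 1 := fun j => by rw [norm_zpow, ht, one_zpow]
    have split : ∑ ω, ((wt3 (1 / 4) (1 / 4) ω -
        (if kd d ω ∈ BB ζ N M b then ∑ i, c i * w i ω else 0) : ℝ) : ℂ) * ∏ j, t j ^ kd d ω j =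
        (∑ ω, (wt3 (1 / 4) (1 / 4) ω : ℂ) * ∏ j, t j ^ kd d ω j -
          ∑ i, (c i : ℂ) * ∑ ω, (w i ω : ℂ) * ∏ j, t j ^ kd d ω j) +
        ∑ i, (c i : ℂ) * ∑ ω : Fin N → Let with kd d ω ∉ BB ζ N M b,
          (w i ω : ℂ) * ∏ j, t j ^ kd d ω j := by
      simp only [Finset.sum_filter, Finset.mul_sum]
      rw [Finset.sum_comm (s := Finset.univ (α := Fin n)),
        Finset.sum_comm (s := Finset.univ (α := Fin n)), ← Finset.sum_sub_distrib,
        ← Finset.sum_add_distrib]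
      refine Finset.sum_congr rfl fun ω _ => ?_
      by_cases k : kd d ω ∈ BB ζ N M b
      · simp [k, sub_mul, Finset.sum_mul, mul_assoc]
      · simp [k]
    rw [split]
    refine (norm_add_le _ _).trans ((add_le_add (b := ε / 2) (d := ε / 2) ?_ ?_).trans
      (by linarith))
    · have key := hl (Fin N × Bool) Finset.univ
        (fun j => if j.2 then 1 - 1 / 4 * (1 - (t j.1).re) else 1 - 1 / 4 * (1 - (t j.1 ^ d).re))
        (fun j => if j.2 then -((p - 1 / 4) * (1 - (t j.1).re)) else (1 - (t j.1 ^ d).re) / 4)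
        (by
          rintro ⟨j, e⟩ -
          obtain ⟨a0, a1⟩ := blkw_re (ht j)
          obtain ⟨b0, b1⟩ := blkw_re (ht' j)
          cases e
          · simp only [Bool.false_eq_true, if_false]
            rw [abs_of_nonneg (by linarith), abs_of_nonneg (by linarith)]
            linarith
          · simp only [if_true]
            rw [abs_neg, abs_of_nonneg (by linarith),
              abs_of_nonneg (mul_nonneg (by linarith) a0)]
            nlinarith)
      simp only [Fintype.prod_prod_type, Fintype.prod_bool, if_true, Bool.false_eq_true,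
        if_false] at key
      simp only [hw, wt3_ft _ _ d t ht, ← Complex.ofReal_mul, ← Complex.ofReal_sum,
        ← Complex.ofReal_sub, Complex.norm_real, Real.norm_eq_abs]
      rw [abs_sub_comm]
      refine le_of_eq_of_le ?_ key
      congr 2
      refine Finset.sum_congr rfl fun i _ => congrArg _ (Finset.prod_congr rfl fun j _ => ?_)
      ring
    · have e : (∑ i, |c i|) * (4 / (N * (th ζ / 2) ^ 2)) ≤ ε / 2 := by
        rw [← mul_div_assoc, div_le_iff₀ (by positivity)]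
        nlinarith
      refine (norm_sum_le _ _).trans (le_trans ?_ e)
      rw [Finset.sum_mul]
      refine Finset.sum_le_sum fun i _ => ?_
      rw [norm_mul, Complex.norm_real, Real.norm_eq_abs]
      refine mul_le_mul_of_nonneg_left ((norm_sum_le _ _).trans (le_trans ?_ (off i)))
        (abs_nonneg _)
      refine Finset.sum_le_sum fun ω _ => ?_
      simp [norm_prod, norm_zpow, ht, abs_of_nonneg (w0 i ω)]

end Pool.Agent.P.MP_bf3635_an.N
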