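import Pool.Agent.P.MP_bf3635_an.N.Iface

/-! Step CONC. -/

set_option autoImplicit false

noncomputable section

namespace Pool.Agent.P.MP_bf3635_an.N

open Classical Filter Topology Pool.Agent.P.MP_bf3635_an.Ev

theorem concw_cross {N : ℕ} (q q' : ℝ) (Y : Let → ℂ)
    (h0 : ∑ a : Let, ((nu3 q a.1 * nu3 q' a.2 : ℝ) : ℂ) * Y a = 0) {c c' : Fin N} (h : c ≠ c') :
    ∑ ω : Fin N → Let, (wt3 q q' ω : ℂ) * (Y (ω c) * (starRingEnd ℂ) (Y (ω c'))) = 0 := by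
  have := wt3_prod (N := N) q q' fun i a =>
    (if i = c then Y a else 1) * if i = c' then (starRingEnd ℂ) (Y a) else 1
  simp only [Finset.prod_mul_distrib, Finset.prod_ite_eq', Finset.mem_univ, if_true] at this
  rw [this]
  exact Finset.prod_eq_zero (Finset.mem_univ c) (by simpa [h] using h0)

theorem concw_mom {N : ℕ} {q q' : ℝ} (h0 : 0 ≤ q) (h1 : q ≤ 1) (h0' : 0 ≤ q') (h1' : q' ≤ 1)
    (Y : Let → ℂ) (hY : ∑ a : Let, ((nu3 q a.1 * nu3 q' a.2 : ℝ) : ℂ) * Y a = 0)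
    (hb : ∀ a, ‖Y a‖ ≤ 2) :
    ∑ ω : Fin N → Let, wt3 q q' ω * ‖∑ c, Y (ω c)‖ ^ 2 ≤ 4 * N := by
  have e : ∑ ω : Fin N → Let, wt3 q q' ω * ‖∑ c, Y (ω c)‖ ^ 2 =
      ∑ c : Fin N, ∑ ω : Fin N → Let, wt3 q q' ω * ‖Y (ω c)‖ ^ 2 := by
    apply Complex.ofReal_injective
    push_cast
    simp only [← Complex.mul_conj', map_sum, Finset.mul_sum]
    rw [Finset.sum_comm]
    refine Finset.sum_congr rfl fun c _ => ?_
    simp only [Finset.sum_mul, Finset.mul_sum]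
    rw [Finset.sum_comm]
    exact Finset.sum_eq_single c (fun c' _ h => concw_cross q q' Y hY h) (by simp)
  rw [e]
  calc _ ≤ ∑ _c : Fin N, ∑ ω : Fin N → Let, wt3 q q' ω * 4 :=
        Finset.sum_le_sum fun c _ => Finset.sum_le_sum fun ω _ =>
          mul_le_mul_of_nonneg_left (by nlinarith [hb (ω c), norm_nonneg (Y (ω c))])
            (wt3_nonneg h0 h1 h0' h1' ω)
    _ = 4 * N := by
        simp only [← Finset.sum_mul, wt3_sum]
        simp [mul_comm]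

theorem p_CONC :
    S_CONC := by
  intro N q q' θ ζ d hN h0 h1 h0' h1' hθ hζ
  have hm := nu3_ft q q' d hζ
  generalize ((((1 - q * (1 - ζ.re)) * (1 - q' * (1 - (ζ ^ d).re)) : ℝ)) : ℂ) = m at hm ⊢
  have hν : ∀ a : Let, 0 ≤ nu3 q a.1 * nu3 q' a.2 := fun a =>
    mul_nonneg (nu3_nonneg h0 h1 _) (nu3_nonneg h0' h1' _)
  have hm1 : ‖m‖ ≤ 1 := by
    rw [← hm, ← nu3_sum q q']
    refine norm_sum_le_of_le _ fun a _ => ?_
    rw [norm_mul, norm_zpow, hζ, one_zpow, mul_one, Complex.norm_real, Real.norm_of_nonneg (hν a)]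
  have hs := concw_mom (N := N) h0 h1 h0' h1' (fun a => ζ ^ (val3 a.1 + d * val3 a.2) - m)
    (by
      simp only [mul_sub, Finset.sum_sub_distrib, hm, ← Finset.sum_mul, ← Complex.ofReal_sum,
        nu3_sum, Complex.ofReal_one, one_mul, sub_self])
    fun a => (norm_sub_le _ _).trans (by rw [norm_zpow, hζ, one_zpow]; linarith)
  have hN' : (0 : ℝ) < N := Nat.cast_pos.2 hN
  have hc : (N : ℂ) ≠ 0 := Nat.cast_ne_zero.2 hN.ne'
  rw [le_div_iff₀ (by positivity), ← mul_le_mul_iff_left₀ hN', Finset.sum_mul, Finset.sum_mul]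
  refine le_trans (Finset.sum_le_sum fun ω hω => ?_) ((Finset.sum_le_sum_of_subset_of_nonneg
    (Finset.subset_univ _) fun ω _ _ =>
      mul_nonneg (wt3_nonneg h0 h1 h0' h1' ω) (sq_nonneg _)).trans hs)
  have h2 := (Finset.mem_filter.1 hω).2
  have e : ∑ c, (ζ ^ (val3 (ω c).1 + d * val3 (ω c).2) - m) = N * (avz ζ (kd d ω) - m) := by
    simp [avz, kd, mul_sub, ← mul_assoc, mul_inv_cancel₀ hc]
  rw [e, norm_mul, Complex.norm_natCast, mul_assoc]
  refine mul_le_mul_of_nonneg_left ?_ (wt3_nonneg h0 h1 h0' h1' ω)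
  calc (N : ℝ) * θ ^ 2 * N = (N * θ) ^ 2 := by ring
    _ ≤ _ := by gcongr

end Pool.Agent.P.MP_bf3635_an.N
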