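import Pool.Agent.P.MP_bf3635_an.N.Iface

/-! Step FEJ. -/

set_option autoImplicit false
set_option linter.unusedSectionVars false

noncomputable section

namespace Pool.Agent.P.MP_bf3635_an.N

open Classical Filter Topology Pool.Agent.P.MP_bf3635_an.Ev
open Finset (range)

theorem fejw_geo {L : ℕ} {ξ : ℂ} (h : IsPrimitiveRoot ξ L) (e : ℤ) (he : |e| < L) :
    ∑ l : Fin L, (ξ ^ (l : ℕ)) ^ e = if e = 0 then (L : ℂ) else 0 := by
  split_ifs with h0
  · simp [h0]
  · have h1 : ξ ^ e ≠ 1 := fun k =>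
      h0 (Int.eq_zero_of_abs_lt_dvd ((h.zpow_eq_one_iff_dvd e).1 k) he)
    have h2 : ∀ l : ℕ, (ξ ^ l) ^ e = (ξ ^ e) ^ l := fun l => by
      rw [← zpow_natCast, ← zpow_mul, mul_comm, zpow_mul, zpow_natCast]
    rw [Fin.sum_univ_eq_sum_range (fun l => (ξ ^ l) ^ e) L]
    simp only [h2]
    rw [geom_sum_eq h1, ← h2, h.pow_eq_one, one_zpow, sub_self, zero_div]

theorem fejw_orth {M b : ℕ} (hb : b ≤ 1) {ξ : ℂ} (h : IsPrimitiveRoot ξ (M + 2)) (a : ℤ → ℂ) :
    ∑ l : Fin (M + 2), (ξ ^ (l : ℕ)) ^ b * ∑ i ∈ range (M + 1), ∑ j ∈ range (M + 1),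
      (ξ ^ (l : ℕ)) ^ ((j : ℤ) - i) * a ((i : ℤ) - j) =
      ((M + 2 : ℕ) : ℂ) * ((M + 1 - b : ℕ) : ℂ) * a b := by
  have h0 : ξ ≠ 0 := h.ne_zero (by omega)
  have h1 : ∀ i ∈ range (M + 1), ∀ j ∈ range (M + 1), ∑ l : Fin (M + 2),
      (ξ ^ (l : ℕ)) ^ b * ((ξ ^ (l : ℕ)) ^ ((j : ℤ) - i) * a ((i : ℤ) - j)) =
        if i = j + b then ((M + 2 : ℕ) : ℂ) * a b else 0 := fun i hi j hj => by
    rw [Finset.mem_range] at hi hj
    have h2 := fejw_geo h ((b : ℤ) + (j - i)) (by rw [abs_lt]; omega)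
    simp only [zpow_add₀ (pow_ne_zero _ h0), zpow_natCast] at h2
    simp only [← mul_assoc]
    rw [← Finset.sum_mul, h2]
    split_ifs with h3 h4 h4
    · rw [show (i : ℤ) - j = b by omega]
    · omega
    · omega
    · exact zero_mul _
  simp only [Finset.mul_sum]
  rw [Finset.sum_comm, Finset.sum_congr rfl fun i hi => Finset.sum_comm.trans
    (Finset.sum_congr rfl (h1 i hi)), Finset.sum_comm]
  simp only [Finset.sum_ite_eq', ← Finset.sum_filter, Finset.sum_const, nsmul_eq_mul]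
  rw [show (range (M + 1)).filter (fun j => j + b ∈ range (M + 1)) = range (M + 1 - b) by
    ext j; simp only [Finset.mem_filter, Finset.mem_range]; omega, Finset.card_range]
  ring

theorem fejw_pos (n : ℕ) {u v : ℂ} (hu : ‖u‖ = 1) (hv : ‖v‖ = 1) :
    ((‖∑ i ∈ range n, ∑ j ∈ range n, u ^ ((j : ℤ) - i) * v ^ ((i : ℤ) - j)‖ : ℝ) : ℂ) =
      ∑ i ∈ range n, ∑ j ∈ range n, u ^ ((j : ℤ) - i) * v ^ ((i : ℤ) - j) := by
  have u0 : u ≠ 0 := by rintro rfl; simp at hu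
  have v0 : v ≠ 0 := by rintro rfl; simp at hv
  have h : ∑ i ∈ range n, ∑ j ∈ range n, u ^ ((j : ℤ) - i) * v ^ ((i : ℤ) - j) =
      (∑ i ∈ range n, (v / u) ^ i) * (starRingEnd ℂ) (∑ i ∈ range n, (v / u) ^ i) := by
    rw [map_sum, Finset.sum_mul_sum]
    refine Finset.sum_congr rfl fun i _ => Finset.sum_congr rfl fun j _ => ?_
    rw [map_pow, map_div₀, ← Complex.inv_eq_conj hu, ← Complex.inv_eq_conj hv, zpow_sub₀ u0,
      zpow_sub₀ v0]
    simp only [zpow_natCast, div_pow, inv_pow]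
    field_simp
  rw [h, Complex.mul_conj, Complex.norm_real, Real.norm_of_nonneg (Complex.normSq_nonneg _)]

variable {G : Type} [CommGroup G] [TopologicalSpace G] [DiscreteTopology G]

/-- multiplication by a character -/
def fejw_md (z : PontryaginDual G) (f : L1 G) : L1 G :=
  L1.mk (fun g => evg g⁻¹ z * f.val g)
    (by simpa only [norm_mul, norm_evg, one_mul] using f.summable_norm)

theorem fejw_ft (z x : PontryaginDual G) (f : L1 G) :
    fourier (fejw_md z f) x = fourier f (x * z) := by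
  refine tsum_congr fun g => ?_
  change evg g⁻¹ z * f.val g * evg g⁻¹ x = f.val g * evg g⁻¹ (x * z)
  rw [map_mul]
  ring

theorem fejw_val {ι : Type} (s : Finset ι) (f : ι → L1 G) (g : G) :
    (∑ i ∈ s, f i).val g = ∑ i ∈ s, (f i).val g := by
  induction s using Finset.induction_on with
  | empty => rfl
  | insert a s h ih => rw [Finset.sum_insert h, Finset.sum_insert h, L1.val_add, ih]

theorem p_FEJ :
    S_FEJ := by
  intro G _ _ _ M hM f y r
  obtain ⟨ξ, h⟩ : ∃ ξ : ℂ, IsPrimitiveRoot ξ (M + 2) := ⟨_, Complex.isPrimitiveRoot_exp _ (by omega)⟩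
  have n1 : ∀ l : ℕ, ‖ξ ^ l‖ = 1 := fun l => by
    rw [norm_pow, h.norm'_eq_one (by omega), one_pow]
  have hM' : (1 : ℝ) ≤ M := by exact_mod_cast hM
  obtain ⟨c, hc⟩ : ∃ c : ℝ, c = 1 / (((M : ℝ) + 2) * M) := ⟨_, rfl⟩
  have c0 : 0 ≤ c := by rw [hc]; positivity
  have c1 : c ≤ 1 := by rw [hc, div_le_one (by positivity)]; nlinarith
  have c2 : c * (((M : ℝ) + 2) * M) = 1 := by rw [hc]; field_simp
  let F : Fin (M + 2) → L1 G := fun l => (c : ℂ) • ∑ i ∈ range (M + 1), ∑ j ∈ range (M + 1),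
    (ξ ^ (l : ℕ)) ^ ((j : ℤ) - i) • fejw_md (y * r ^ ((i : ℤ) - j)) f
  have hF : ∀ l x, fourier (F l) x = c * ∑ i ∈ range (M + 1), ∑ j ∈ range (M + 1),
      (ξ ^ (l : ℕ)) ^ ((j : ℤ) - i) * fourier f (x * (y * r ^ ((i : ℤ) - j))) := fun l x => by
    simp only [F, fourier_smul, fourier_sum, fejw_ft]
  have hb : ∀ b : ℕ, b ≤ 1 → ∀ x, ‖fourier f (x * (y * r ^ (b : ℤ)))‖ ≤ ∑ l, ‖fourier (F l) x‖ := by
    intro b hb x
    have h1 := fejw_orth hb h fun d => fourier f (x * (y * r ^ d))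
    have h2 : ∑ l : Fin (M + 2), (ξ ^ (l : ℕ)) ^ b * fourier (F l) x =
        c * (((M + 2 : ℕ) : ℂ) * ((M + 1 - b : ℕ) : ℂ) * fourier f (x * (y * r ^ (b : ℤ)))) := by
      rw [← h1, Finset.mul_sum]
      exact Finset.sum_congr rfl fun l _ => by rw [hF, mul_left_comm]
    have h3 := norm_sum_le Finset.univ fun l : Fin (M + 2) => (ξ ^ (l : ℕ)) ^ b * fourier (F l) x
    simp only [h2, norm_mul, norm_pow _ b, n1, one_pow, one_mul, Complex.norm_real,
      Real.norm_of_nonneg c0, Complex.norm_natCast] at h3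
    refine le_trans ?_ h3
    have h4 : (M : ℝ) ≤ ((M + 1 - b : ℕ) : ℝ) := by exact_mod_cast (by omega : M ≤ M + 1 - b)
    rw [← mul_assoc c]
    refine le_mul_of_one_le_left (norm_nonneg (fourier f _)) (c2.symm.trans_le ?_)
    push_cast [Nat.cast_add M 2]
    gcongr
  refine ⟨F, ?_, fun x => ⟨by simpa using hb 0 (by omega) x, by simpa using hb 1 le_rfl x⟩,
    fun l x => ?_⟩
  · refine hasSum_le (fun g => ?_) (hasSum_sum fun l _ => (F l).hasSum_norm)
      (f.hasSum_norm.mul_left _)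
    have h1 : ∀ l, (F l).val g = c * (∑ i ∈ range (M + 1), ∑ j ∈ range (M + 1),
        (ξ ^ (l : ℕ)) ^ ((j : ℤ) - i) * evg g⁻¹ r ^ ((i : ℤ) - j)) * (evg g⁻¹ y * f.val g) := by
      intro l
      simp only [F, L1.val_smul, fejw_val, fejw_md, L1.val_mk, map_mul, map_zpow, mul_assoc,
        Finset.sum_mul]
      refine congrArg _ (Finset.sum_congr rfl fun i _ => Finset.sum_congr rfl fun j _ => by ring)
    have h2 := fejw_orth (Nat.zero_le 1) h fun d => evg g⁻¹ r ^ d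
    simp only [pow_zero, one_mul, Nat.cast_zero, zpow_zero, mul_one, Nat.sub_zero] at h2
    rw [← Finset.sum_congr rfl fun (l : Fin (M + 2)) _ =>
      fejw_pos (M + 1) (n1 l) (norm_evg g⁻¹ r)] at h2
    have h3 : ∑ l : Fin (M + 2), ‖∑ i ∈ range (M + 1), ∑ j ∈ range (M + 1),
        (ξ ^ (l : ℕ)) ^ ((j : ℤ) - i) * evg g⁻¹ r ^ ((i : ℤ) - j)‖ = ((M : ℝ) + 2) * (M + 1) := by
      exact_mod_cast h2
    simp only [h1, norm_mul, norm_evg, one_mul, Complex.norm_real, Real.norm_of_nonneg c0]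
    rw [← Finset.sum_mul, ← Finset.mul_sum, h3, hc]
    refine le_of_eq (congrArg (· * _) ?_)
    field_simp
  · rw [hF, norm_mul, Complex.norm_real, Real.norm_of_nonneg c0]
    refine (mul_le_of_le_one_left (norm_nonneg _) c1).trans ?_
    refine (norm_sum_le_of_le _ fun i hi => norm_sum_le_of_le
      (n := fun _ => ∑ d ∈ Finset.Icc (-(M : ℤ)) M, ‖fourier f (x * (y * r ^ d))‖) _
      fun j hj => ?_).trans (le_of_eq ?_)
    · rw [norm_mul, norm_zpow, n1, one_zpow, one_mul]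
      rw [Finset.mem_range] at hi hj
      exact Finset.single_le_sum (f := fun d : ℤ => ‖fourier f (x * (y * r ^ d))‖)
        (fun _ _ => norm_nonneg _) (Finset.mem_Icc.2 (by omega))
    · simp only [Finset.sum_const, Finset.card_range, nsmul_eq_mul]
      push_cast
      ring

end Pool.Agent.P.MP_bf3635_an.N
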