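import Pool.Agent.P.MP_bf3635_an.N.Iface

/-! Step GEO. -/

set_option autoImplicit false

noncomputable section

namespace Pool.Agent.P.MP_bf3635_an.N

open Classical Filter Topology Pool.Agent.P.MP_bf3635_an.Ev

theorem geow_avg {E : Type} [NormedAddCommGroup E] [NormedSpace ℂ E] {N : ℕ} (v : Fin N → E)
    {κ : ℝ} (hκ : 0 ≤ κ) (h : ∀ c, ‖v c‖ ≤ κ) : ‖(N : ℂ)⁻¹ • ∑ c, v c‖ ≤ κ := by
  have : ‖∑ c, v c‖ ≤ N * κ := (norm_sum_le _ _).trans (by
    simpa using Finset.sum_le_card_nsmul Finset.univ (fun c : Fin N => ‖v c‖) κ fun c _ => h c)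
  rw [norm_smul, norm_inv, Complex.norm_natCast]
  refine (mul_le_mul_of_nonneg_left this (by positivity)).trans ?_
  rw [← mul_assoc]
  exact mul_le_of_le_one_left hκ inv_mul_le_one

theorem p_GEO :
    S_GEO := by
  intro G _ _ _ H ζ h1 hL s N B hB κ hκ
  have h0 : ζ ≠ 0 := by rintro rfl; simp at h1
  obtain ⟨V, hV, hVU⟩ := exists_nhds_one_split (s.opn.mem_nhds s.one)
  obtain ⟨a, g, hag⟩ := exists_coord hL h0 (s.P.biUnion B) hV s.P hκ
  have hk : ∀ x ∈ s.P, ∀ k ∈ B x, pw a k ∈ V ∧ pw a k ∈ H ∧ ∀ c,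
      ‖evg (g c) (x * pw a k) - ζ ^ k c‖ < κ := fun x hx k hb =>
    have := hag k (Finset.mem_biUnion.2 ⟨x, hx, hb⟩)
    ⟨this.1, this.2.1, this.2.2 x hx⟩
  have hW : ∀ᶠ u in 𝓝 (1 : PontryaginDual G), ∀ x ∈ s.P, ∀ k ∈ B x, ∀ c,
      ‖evg (g c) (x * pw a k * u) - ζ ^ k c‖ < κ :=
    (eventually_all_finset _).2 fun x hx => (eventually_all_finset _).2 fun k hb =>
      eventually_all.2 fun c =>
        ((((continuous_evg (g c)).comp (continuous_const_mul (x * pw a k))).sub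
          continuous_const).norm.continuousAt).eventually
          (gt_mem_nhds (by
            simpa only [Function.comp, mul_one, Pi.sub_apply] using (hk x hx k hb).2.2 c))
  have hm : ∀ x', x' ∈ (s.P.biUnion fun x => (B x).image fun k => x * pw a k) ↔
      ∃ x ∈ s.P, ∃ k ∈ B x, x' = x * pw a k := fun x' => by
    simp only [Finset.mem_biUnion, Finset.mem_image, eq_comm]
  obtain ⟨s', e, hc⟩ := exists_sg (H := H) (s.P.biUnion fun x => (B x).image fun k => x * pw a k)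
    (by
      obtain ⟨x, hx⟩ := s.ne
      obtain ⟨k, hb⟩ := hB x
      exact ⟨_, (hm _).2 ⟨x, hx, k, hb, rfl⟩⟩)
    (fun p hp => by
      obtain ⟨x, hx, k, hb, rfl⟩ := (hm p).1 hp
      exact H.mul_mem (s.sub x hx) (hk x hx k hb).2.1) (inter_mem hV hW)
  refine ⟨a, s', (N : ℂ)⁻¹ • ∑ c, ch (g c), geow_avg _ zero_le_one fun c => (norm_ch _).le,
    fun p hp => ?_, fun x' => by rw [e]; exact hm x', fun x hx k hb u hu =>
      ⟨hVU _ (hk x hx k hb).1 _ (hc (subset_closure hu)).1, ?_⟩⟩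
  · rw [e] at hp
    obtain ⟨x, hx, k, hb, rfl⟩ := (hm p).1 hp
    exact ⟨x, hx, _, rfl, fun u hu => hVU _ (hk x hx k hb).1 _ (hc hu).1⟩
  · have := geow_avg (fun c => evg (g c) (x * pw a k * u) - ζ ^ k c) hκ.le
      fun c => ((hc (subset_closure hu)).2 x hx k hb c).le
    rw [fourier_smul, fourier_sum, avz, ← mul_sub, ← Finset.sum_sub_distrib]
    simpa only [fourier_ch, smul_eq_mul] using this

end Pool.Agent.P.MP_bf3635_an.N
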