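import Pool.Agent.P.MP_bf3635_an.N.Iface

/-! Step HEL. -/

set_option autoImplicit false

noncomputable section

namespace Pool.Agent.P.MP_bf3635_an.N

open Classical Filter Topology Pool.Agent.P.MP_bf3635_an.Ev

section

variable {G : Type} [CommGroup G] [TopologicalSpace G] [DiscreteTopology G] (p : Pack2 G)

theorem helw_fac (f : L1 G) {θ : ℝ} (hθ : 0 < θ) : ∃ m, ∃ φ ∈ p.Fac m,
    ∃ j ∈ (idealJ fourierChar p.E).closure, ‖f - j - φ‖ < θ := by
  let P : Submodule ℂ (L1 G) :=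
    { carrier := {f | ∃ m, ∃ φ ∈ p.Fac m, f - φ ∈ (idealJ fourierChar p.E).closure}
      zero_mem' := ⟨0, 0, zero_mem _, by rw [sub_zero]; exact zero_mem _⟩
      add_mem' := by
        rintro a b ⟨m, φ, h1, h2⟩ ⟨m', φ', h1', h2'⟩
        exact ⟨max m m', φ + φ', add_mem (p.mono (le_max_left _ _) h1)
          (p.mono (le_max_right _ _) h1'), by rw [add_sub_add_comm]; exact add_mem h2 h2'⟩
      smul_mem' := by
        rintro c a ⟨m, φ, h1, h2⟩
        refine ⟨m, c • φ, Submodule.smul_mem _ _ h1, ?_⟩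
        rw [← smul_sub, Algebra.smul_def]
        exact Ideal.mul_mem_left _ _ h2 }
  have h := L1.dense_delta P.topologicalClosure P.isClosed_topologicalClosure fun g => by
    refine Metric.mem_closure_iff.2 fun η hη => ?_
    obtain ⟨i, hi⟩ := p.rep g⁻¹
    obtain ⟨m, φ, h1, h2⟩ := p.app i (η / 2) (by positivity)
    refine ⟨φ + (ch g⁻¹ - ch (p.χ i)), ⟨m, φ, h1, by rwa [add_sub_cancel_left]⟩, ?_⟩
    rw [dist_eq_norm, show L1.delta g = ch g⁻¹ by rw [ch, inv_inv], norm_sub_rev,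
      show φ + (ch g⁻¹ - ch (p.χ i)) - ch g⁻¹ = φ - ch (p.χ i) by abel]
    linarith
  have hf : f ∈ closure (P : Set (L1 G)) := by
    have : f ∈ P.topologicalClosure := h ▸ Submodule.mem_top
    exact this
  obtain ⟨a, ⟨m, φ, h1, h2⟩, hd⟩ := Metric.mem_closure_iff.1 hf θ hθ
  exact ⟨m, φ, h1, _, h2, by rwa [sub_sub, sub_add_cancel, ← dist_eq_norm]⟩

theorem helw_near {f j φ : L1 G} (hj : j ∈ (idealJ fourierChar p.E).closure)
    {γ : PontryaginDual G} (hγ : γ ∈ p.E) : ‖fourier f γ - fourier φ γ‖ ≤ ‖f - j - φ‖ := by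
  have := norm_fourier_le (f - j - φ) γ
  rwa [fourier_sub, fourier_sub, mem_idealI.1 (closure_idealJ_le fourierChar _ hj) γ hγ,
    sub_zero] at this

theorem helw_step (f : L1 G) (ρ : ℝ) (hρ : 0 < ρ) (hf : ∀ γ ∈ p.E, ‖fourier f γ‖ ≤ ρ) :
    ∃ a : L1 G, ‖a‖ ≤ 2 * p.C * ρ ∧ ∀ γ ∈ p.E, ‖fourier (f - a) γ‖ ≤ ρ / 2 := by
  obtain ⟨m, φ, h2, j, hj, h1⟩ := helw_fac p f (θ := ρ / 8) (by positivity)
  have h3 : ∀ γ ∈ p.E, ‖fourier f γ - fourier φ γ‖ ≤ ρ / 8 := fun γ hγ =>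
    (helw_near p hj hγ).trans h1.le
  have h4 : ∀ γ ∈ p.E, ‖fourier φ γ‖ ≤ ρ + ρ / 8 := fun γ hγ => by
    have := norm_sub_le (fourier f γ) (fourier f γ - fourier φ γ)
    rw [sub_sub_cancel] at this
    linarith [hf γ hγ, h3 γ hγ]
  obtain ⟨a, ha1, ha2⟩ := p.hel m φ h2 (ρ + ρ / 8) (by positivity) h4
  refine ⟨a, by nlinarith [mul_pos p.pos hρ], fun γ hγ => ?_⟩
  rw [fourier_sub]
  have e : fourier f γ - fourier a γ =
      (fourier f γ - fourier φ γ) - (fourier a γ - fourier φ γ) := by ring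
  rw [e]
  refine (norm_sub_le _ _).trans ?_
  linarith [h3 γ hγ, ha2 γ hγ]

theorem helw_helson (f : L1 G) (ρ : ℝ) (hρ : 0 < ρ) (hf : ∀ γ ∈ p.E, ‖fourier f γ‖ ≤ ρ) :
    ∃ r : L1 G, ‖r‖ ≤ 4 * p.C * ρ ∧ ∀ γ ∈ p.E, fourier r γ = fourier f γ := by
  choose! A hA1 hA2 using helw_step p
  let F : ℕ → L1 G := fun n => Nat.rec f (fun n x => x - A x (ρ / 2 ^ n)) n
  have hF : ∀ n, F (n + 1) = F n - A (F n) (ρ / 2 ^ n) := fun n => rfl
  have h1 : ∀ n, ∀ γ ∈ p.E, ‖fourier (F n) γ‖ ≤ ρ / 2 ^ n := by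
    intro n
    induction n with
    | zero => simpa [F] using hf
    | succ n ih =>
      intro γ hγ
      rw [hF, pow_succ, ← div_div]
      exact hA2 _ _ (by positivity) ih γ hγ
  have h2 : ∀ n, ‖A (F n) (ρ / 2 ^ n)‖ ≤ 4 * p.C * ρ / 2 / 2 ^ n := fun n =>
    (hA1 _ _ (by positivity) (h1 n)).trans (le_of_eq (by ring))
  have hs := hasSum_geometric_two' (4 * p.C * ρ)
  have hsum : Summable fun n => A (F n) (ρ / 2 ^ n) := Summable.of_norm_bounded hs.summable h2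
  refine ⟨∑' n, A (F n) (ρ / 2 ^ n), tsum_of_norm_bounded hs h2, fun γ hγ => ?_⟩
  have h3 := (fourier_hasSum hsum.hasSum γ).tendsto_sum_nat
  have h4 : ∀ n, ∑ k ∈ Finset.range n, fourier (A (F k) (ρ / 2 ^ k)) γ =
      fourier f γ - fourier (F n) γ := by
    intro n
    induction n with
    | zero => simp [F]
    | succ n ih => rw [Finset.sum_range_succ, ih, hF, fourier_sub]; ring
  simp only [h4] at h3
  have h5 : Tendsto (fun n => fourier (F n) γ) atTop (𝓝 0) := by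
    refine squeeze_zero_norm (fun n => h1 n γ hγ) ?_
    exact tendsto_const_nhds.div_atTop (tendsto_pow_atTop_atTop_of_one_lt one_lt_two)
  have h6 := (tendsto_const_nhds (x := fourier f γ)).sub h5
  rw [sub_zero] at h6
  exact tendsto_nhds_unique h3 h6

end

theorem p_HEL :
    S_HEL := by
  intro G _ _ _ p f ρ hρ hf
  exact helw_helson p f ρ hρ hf

end Pool.Agent.P.MP_bf3635_an.N
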