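import Pool.Agent.P.MP_bf3635_an.N.Iface

/-! Step INT. -/

set_option autoImplicit false

noncomputable section

namespace Pool.Agent.P.MP_bf3635_an.N

open Classical Filter Topology Pool.Agent.P.MP_bf3635_an.Ev

theorem intw_sep {G : Type} [CommGroup G] [TopologicalSpace G] [DiscreteTopology G]
    (P : Finset (PontryaginDual G)) {x y : PontryaginDual G} (h : x ≠ y) :
    ∃ φ : L1 G, fourier φ x = 1 ∧ fourier φ y = 0 ∧
      ∀ z ∈ P, ∀ᶠ γ in 𝓝 z, fourier φ γ = fourier φ z := by
  obtain ⟨g, hg⟩ : ∃ g, evg g x ≠ evg g y := by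
    by_contra e
    push Not at e
    exact h (ContinuousMonoidHom.ext fun g => Circle.ext (e g))
  have h0 : 0 < ‖evg g x - evg g y‖ := norm_pos_iff.2 (sub_ne_zero.2 hg)
  obtain ⟨s, h1, h2⟩ := exists_loc (‖evg g x - evg g y‖ / 4) (by positivity) g P
  have h3 : fourier s x - fourier s y ≠ 0 := by
    intro e
    have a := (norm_fourier_le (s - ch g) x).trans h1
    have b := (norm_fourier_le (s - ch g) y).trans h1
    rw [fourier_sub, fourier_ch] at a b
    have c : evg g x - evg g y = (fourier s y - evg g y) - (fourier s x - evg g x) := by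
      linear_combination e
    have d := norm_sub_le (fourier s y - evg g y) (fourier s x - evg g x)
    rw [← c] at d
    linarith
  have h4 : ∀ γ, fourier ((fourier s x - fourier s y)⁻¹ • (s - fourier s y • (1 : L1 G))) γ =
      (fourier s x - fourier s y)⁻¹ * (fourier s γ - fourier s y) := fun γ => by
    rw [fourier_smul, fourier_sub, fourier_smul, fourier_one, mul_one]
  refine ⟨_, by rw [h4, inv_mul_cancel₀ h3], by rw [h4, sub_self, mul_zero], fun z hz => ?_⟩
  filter_upwards [h2 z hz] with γ e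
  rw [h4, h4, e]

theorem intw_one {G : Type} [CommGroup G] [TopologicalSpace G] [DiscreteTopology G]
    (P : Finset (PontryaginDual G)) (x : PontryaginDual G) :
    ∃ b : L1 G, ∀ z ∈ P, ∀ᶠ γ in 𝓝 z, fourier b γ = if x = z then 1 else 0 := by
  have h : ∀ y, ∃ φ : L1 G, x ≠ y → fourier φ x = 1 ∧ fourier φ y = 0 ∧
      ∀ z ∈ P, ∀ᶠ γ in 𝓝 z, fourier φ γ = fourier φ z := fun y => by
    by_cases e : x = y
    · exact ⟨0, fun a => (a e).elim⟩
    · exact (intw_sep P e).imp fun _ a _ => a
  choose φ hφ using h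
  have hne : ∀ y ∈ P.erase x, x ≠ y := fun y hy => (Finset.ne_of_mem_erase hy).symm
  refine ⟨∏ y ∈ P.erase x, φ y, fun z hz => ?_⟩
  filter_upwards [(eventually_all_finset (P.erase x)).2 fun y hy => (hφ y (hne y hy)).2.2 z hz]
    with γ e
  rw [fourier_prod, Finset.prod_congr rfl e]
  split_ifs with a
  · exact Finset.prod_eq_one fun y hy => a ▸ (hφ y (hne y hy)).1
  · exact Finset.prod_eq_zero (Finset.mem_erase.2 ⟨Ne.symm a, hz⟩) (hφ z a).2.1

theorem p_INT :
    S_INT := by
  intro G _ _ _ P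
  choose b hb using intw_one P
  refine ⟨∑ x ∈ P, ‖b x‖, Finset.sum_nonneg fun _ _ => norm_nonneg _, fun v =>
    ⟨∑ x ∈ P, v x • b x, ?_, fun z hz => ?_⟩⟩
  · rw [Finset.mul_sum]
    refine (norm_sum_le _ _).trans (Finset.sum_le_sum fun x hx => ?_)
    rw [norm_smul, mul_comm]
    exact mul_le_mul_of_nonneg_right
      (Finset.single_le_sum (f := fun x => ‖b x‖) (fun _ _ => norm_nonneg _) hx) (norm_nonneg _)
  · filter_upwards [(eventually_all_finset P).2 fun x _ => hb x z hz] with γ e
    rw [fourier_sum, Finset.sum_congr rfl fun x hx => by rw [fourier_smul, e x hx]]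
    simp [hz]

end Pool.Agent.P.MP_bf3635_an.N
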