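import Pool.Agent.P.MP_bf3635_an.N.Iface

/-! Step KEEP. -/

set_option autoImplicit false

noncomputable section

namespace Pool.Agent.P.MP_bf3635_an.N

open Classical Filter Topology Pool.Agent.P.MP_bf3635_an.Ev

theorem keepw_one (hFEJ : S_FEJ) {G : Type} [CommGroup G] [TopologicalSpace G]
    [DiscreteTopology G] {P : Finset (PontryaginDual G)} {C : ℝ} (hC0 : 0 ≤ C)
    (hC : ∀ v : PontryaginDual G → ℂ, ∃ b : L1 G,
      ‖b‖ ≤ C * ∑ x ∈ P, ‖v x‖ ∧ ∀ x ∈ P, ∀ᶠ γ in 𝓝 x, fourier b γ = v x)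
    {ι : Type} [Fintype ι] {pt : ι → PontryaginDual G} {μ : ι → ℝ} {D : PontryaginDual G → Prop}
    {η : ℝ} (h0 : 0 ≤ η) (h1 : ∀ i, 0 ≤ μ i) (h2 : ∀ i, μ i ≠ 0 → pt i ∈ P ∧ D (pt i))
    (h4 : ∀ f : L1 G, (∀ x ∈ P, ¬ D x → fourier f x = 0) →
      ∑ i, μ i * ‖fourier f (pt i)‖ ≤ η * (∑ i, μ i) * ‖f‖)
    {M : ℕ} (hM : 1 ≤ M) (f : L1 G) (y r : PontryaginDual G) (j : ι → Bool) :
    ∑ i, μ i * ‖fourier f (pt i * if j i then y else y * r)‖ ≤ η * (∑ i, μ i) *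
      ((1 + 1 / (M : ℝ)) * ‖f‖ + (M + 2) * (C * (((M : ℝ) + 1) ^ 2 * ∑ x ∈ P with ¬ D x,
        ∑ d ∈ Finset.Icc (-(M : ℤ)) M, ‖fourier f (x * (y * r ^ d))‖))) := by
  obtain ⟨F, f1, f2, f3⟩ := hFEJ G M hM f y r
  set T := C * (((M : ℝ) + 1) ^ 2 * ∑ x ∈ P with ¬ D x,
    ∑ d ∈ Finset.Icc (-(M : ℤ)) M, ‖fourier f (x * (y * r ^ d))‖) with hT
  have hs : 0 ≤ ∑ i, μ i := Finset.sum_nonneg fun i _ => h1 i
  have a1 : ∀ l, ∑ i, μ i * ‖fourier (F l) (pt i)‖ ≤ η * (∑ i, μ i) * (‖F l‖ + T) := fun l => by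
    obtain ⟨b, b1, b2⟩ := hC fun x => if D x then 0 else fourier (F l) x
    have b3 : ‖b‖ ≤ T := by
      refine b1.trans (mul_le_mul_of_nonneg_left ?_ hC0)
      rw [Finset.mul_sum, Finset.sum_filter]
      refine Finset.sum_le_sum fun x _ => ?_
      by_cases h : D x
      · simp [h]
      · simpa only [h, if_false, not_false_eq_true, if_true] using f3 l x
    have b4 := h4 (F l - b) fun x hx h => by
      rw [fourier_sub, (b2 x hx).self_of_nhds, if_neg h, sub_self]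
    refine le_trans (le_of_eq (Finset.sum_congr rfl fun i _ => ?_)) (b4.trans ?_)
    · by_cases h : μ i = 0
      · simp [h]
      · rw [fourier_sub, (b2 _ (h2 i h).1).self_of_nhds, if_pos (h2 i h).2, sub_zero]
    · exact mul_le_mul_of_nonneg_left ((norm_sub_le _ _).trans (by linarith)) (by positivity)
  calc ∑ i, μ i * ‖fourier f (pt i * if j i then y else y * r)‖
      ≤ ∑ i, ∑ l, μ i * ‖fourier (F l) (pt i)‖ := Finset.sum_le_sum fun i _ => by
        rw [← Finset.mul_sum]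
        refine mul_le_mul_of_nonneg_left ?_ (h1 i)
        split_ifs
        · exact (f2 _).1
        · exact (f2 _).2
    _ ≤ ∑ l, η * (∑ i, μ i) * (‖F l‖ + T) := by
        rw [Finset.sum_comm]
        exact Finset.sum_le_sum fun l _ => a1 l
    _ ≤ _ := by
        rw [← Finset.mul_sum, Finset.sum_add_distrib, Finset.sum_const, Finset.card_univ,
          Fintype.card_fin, nsmul_eq_mul]
        push_cast
        gcongr

theorem p_KEEP (hQA : S_QA) (hFEJ : S_FEJ) (hINT : S_INT) :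
    S_KEEP := by
  intro G _ _ _ ζ P ε1 hε1
  obtain ⟨C, hC0, hC⟩ := hINT G P
  set ε := min ε1 1 with hεd
  have hε : 0 < ε := lt_min hε1 one_pos
  have hε' : ε ≤ 1 := min_le_right _ _
  obtain ⟨M, hM⟩ := exists_nat_ge (4 / ε)
  have hM4 : (4 : ℝ) ≤ M := le_trans (by rw [le_div_iff₀ hε]; linarith) hM
  have hM1 : 1 ≤ M := by exact_mod_cast (show (1 : ℝ) ≤ M by linarith)
  have hMε : 1 / (M : ℝ) ≤ ε / 4 := by
    rw [div_le_iff₀ hε] at hM
    rw [div_le_div_iff₀ (by linarith) (by norm_num)]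
    linarith
  set K : ℝ := (M + 2) * (C * (((M : ℝ) + 1) ^ 2 * (P.card * (2 * M + 1)))) with hK
  have hK0 : 0 ≤ K := by positivity
  set e : ℝ := ε / (4 * (K + 1)) with he
  have he0 : 0 < e := by positivity
  have he1 : (K + 1) * e = ε / 4 := by rw [he]; field_simp
  have he2 : e ≤ ε / 4 := by nlinarith
  have he3 : e ^ 2 ≤ ε / 4 := by nlinarith
  refine ⟨M, hM1, e ^ 2, by positivity, fun N hB a ψ P' D η hη hP ⟨h0, ι, _, pt, μ, h1, h2, h3,
    h4⟩ => Good.mono (η := η + ε) ?_ (by linarith [min_le_left ε1 1])⟩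
  let W : (Fin N → Let) → ℝ := wt3 (1 / 4) (1 / 4)
  have hW : ∀ ω, 0 ≤ W ω := wt3_nonneg (by norm_num) (by norm_num) (by norm_num) (by norm_num)
  have hW1 : ∑ ω, W ω = 1 := wt3_sum _ _ _
  let ok : (Fin N → Let) → Prop := fun ω => kd 0 ω ∈ BB ζ N M true ∧ kd 1 ω ∈ BB ζ N M false
  let W' : (Fin N → Let) → ℝ := fun ω => if ok ω then W ω else 0
  have hW' : ∀ ω, 0 ≤ W' ω ∧ W' ω ≤ W ω := fun ω => by
    simp only [W']
    split_ifs
    · exact ⟨hW ω, le_rfl⟩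
    · exact ⟨le_rfl, hW ω⟩
  have hS : 1 - ε / 4 ≤ ∑ ω, W' ω := by
    have k1 := Finset.sum_filter_add_sum_filter_not Finset.univ ok W
    have k2 : ∑ ω with ¬ ok ω, W ω ≤ e ^ 2 := hB.good
    rw [← Finset.sum_filter]
    linarith
  have hsum : ∑ p : ι × (Fin N → Let), μ p.1 * W' p.2 = (∑ i, μ i) * ∑ ω, W' ω := by
    rw [Fintype.sum_prod_type, Finset.sum_mul_sum]
  refine ⟨by linarith, ι × (Fin N → Let), inferInstance,
    fun p => pt p.1 * pw a (kd (if ψ (pt p.1) then 0 else 1) p.2), fun p => μ p.1 * W' p.2,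
    fun p => mul_nonneg (h1 _) (hW' _).1, fun p hp => ?_, ?_, fun f hf => ?_⟩
  · obtain ⟨k1, k2⟩ := h2 _ (left_ne_zero_of_mul hp)
    have k3 : ok p.2 := by
      by_contra k
      exact right_ne_zero_of_mul hp (if_neg k)
    have k4 : kd (if ψ (pt p.1) then 0 else 1) p.2 ∈ BB ζ N M (ψ (pt p.1)) := by
      cases ψ (pt p.1)
      · exact k3.2
      · exact k3.1
    exact ⟨(hP _ k1 _ k4).1, (hP _ k1 _ k4).2.2 k2⟩
  · rw [hsum]
    exact mul_pos h3 (by linarith)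
  have q1 : ∀ x ∈ P, ¬ D x → ∀ d ∈ Finset.Icc (-(M : ℤ)) M,
      ∑ ω, W ω * ‖fourier f (x * pw a (kd d ω))‖ ≤ e * ‖f‖ := fun x hx hD d hd => by
    obtain ⟨h, k1, k2⟩ := hB.app (ψ x) d (abs_le.2 (Finset.mem_Icc.1 hd))
    refine hQA G _ (fun ω => x * pw a (kd d ω)) W h e he0.le hW hW1 (fun g => ?_) f
      fun ω k => hf _ (hP x hx _ (k1 ω k)).1 fun k' => hD ((hP x hx _ (k1 ω k)).2.1 k')
    simp only [map_mul, evg_pw, mul_left_comm _ (evg g x), ← Finset.mul_sum, norm_mul, norm_evg,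
      one_mul]
    exact k2 _ fun c => norm_evg _ _
  let T : (Fin N → Let) → ℝ := fun ω => ∑ x ∈ P with ¬ D x,
    ∑ d ∈ Finset.Icc (-(M : ℤ)) M, ‖fourier f (x * pw a (kd d ω))‖
  have q2 : ∑ ω, W ω * T ω ≤ P.card * (2 * M + 1) * (e * ‖f‖) := by
    simp only [T, Finset.mul_sum]
    rw [Finset.sum_comm]
    refine (Finset.sum_le_card_nsmul _ _ ((2 * M + 1) * (e * ‖f‖)) fun x hx => ?_).trans ?_
    · rw [Finset.sum_comm]
      refine (Finset.sum_le_card_nsmul _ _ _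
        (q1 x (Finset.mem_filter.1 hx).1 (Finset.mem_filter.1 hx).2)).trans (le_of_eq ?_)
      rw [nsmul_eq_mul, Int.card_Icc, show (M : ℤ) + 1 - -(M : ℤ) = ((2 * M + 1 : ℕ) : ℤ) by
        push_cast; ring, Int.toNat_natCast]
      push_cast
      rfl
    · rw [nsmul_eq_mul, mul_assoc]
      have : ((P.filter fun x => ¬ D x).card : ℝ) ≤ P.card := by
        exact_mod_cast Finset.card_filter_le _ _
      gcongr
  have q3 : ∀ ω, ∑ i, μ i * ‖fourier f (pt i * pw a (kd (if ψ (pt i) then 0 else 1) ω))‖ ≤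
      η * (∑ i, μ i) * ((1 + 1 / (M : ℝ)) * ‖f‖ + (M + 2) * (C * (((M : ℝ) + 1) ^ 2 * T ω))) :=
    fun ω => by
    have := keepw_one hFEJ hC0 hC h0 h1 h2 h4 hM1 f (pw a (kd 0 ω)) (pw a (ld ω))
      fun i => ψ (pt i)
    simp only [← pw_kd] at this
    refine le_trans (le_of_eq (Finset.sum_congr rfl fun i _ => ?_)) this
    cases ψ (pt i)
    · simp only [Bool.false_eq_true, if_false, pw_kd a 1, zpow_one]
    · simp only [if_true]
  have hf0 := norm_nonneg f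
  calc ∑ p : ι × (Fin N → Let), μ p.1 * W' p.2 *
        ‖fourier f (pt p.1 * pw a (kd (if ψ (pt p.1) then 0 else 1) p.2))‖
      = ∑ ω, W' ω * ∑ i, μ i *
          ‖fourier f (pt i * pw a (kd (if ψ (pt i) then 0 else 1) ω))‖ := by
        rw [Fintype.sum_prod_type, Finset.sum_comm]
        refine Finset.sum_congr rfl fun ω _ => ?_
        rw [Finset.mul_sum]
        exact Finset.sum_congr rfl fun i _ => by ring
    _ ≤ ∑ ω, W ω * (η * (∑ i, μ i) * ((1 + 1 / (M : ℝ)) * ‖f‖ +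
          (M + 2) * (C * (((M : ℝ) + 1) ^ 2 * T ω)))) := Finset.sum_le_sum fun ω _ =>
        mul_le_mul (hW' ω).2 (q3 ω)
          (Finset.sum_nonneg fun i _ => mul_nonneg (h1 i) (norm_nonneg _)) (hW ω)
    _ = η * (∑ i, μ i) * ((1 + 1 / (M : ℝ)) * ‖f‖ * ∑ ω, W ω +
          (M + 2) * (C * (((M : ℝ) + 1) ^ 2 * ∑ ω, W ω * T ω))) := by
        simp only [Finset.mul_sum (s := Finset.univ (α := Fin N → Let)), ← Finset.sum_add_distrib]
        exact Finset.sum_congr rfl fun ω _ => by ring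
    _ ≤ η * (∑ i, μ i) * ((1 + ε / 4) * ‖f‖ * 1 +
          (M + 2) * (C * (((M : ℝ) + 1) ^ 2 * (P.card * (2 * M + 1) * (e * ‖f‖))))) := by
        rw [hW1]
        gcongr
    _ = (∑ i, μ i) * ‖f‖ * (η * (1 + ε / 4 + K * e)) := by rw [hK]; ring
    _ ≤ (∑ i, μ i) * ‖f‖ * ((η + ε) * ∑ ω, W' ω) := by
        refine mul_le_mul_of_nonneg_left ?_ (by positivity)
        have k1 : η * (1 + ε / 4 + K * e) ≤ η * (1 + ε / 2) :=
          mul_le_mul_of_nonneg_left (by linarith) h0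
        have k2 : (η + ε) * (1 - ε / 4) ≤ (η + ε) * ∑ ω, W' ω :=
          mul_le_mul_of_nonneg_left hS (by linarith)
        nlinarith
    _ = _ := by rw [hsum]; ring

end Pool.Agent.P.MP_bf3635_an.N
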