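import Pool.Agent.P.MP_bf3635_an.N.Iface

/-! Step LAM. -/

set_option autoImplicit false

noncomputable section

namespace Pool.Agent.P.MP_bf3635_an.N

open Classical Filter Topology Pool.Agent.P.MP_bf3635_an.Ev

theorem lamw_ind {n : ℕ} (c z : Fin n → ℝ) {η : ℝ}
    (h : ∀ j : ℕ, |∑ i, c i * z i ^ j - 0 ^ j| ≤ η) {ι : Type} (s : Finset ι) (α β : ι → ℝ)
    (hs : ∀ j ∈ s, |α j| + |β j| ≤ 1) (j : ℕ) :
    |∑ i, c i * (z i ^ j * ∏ k ∈ s, (α k + β k * z i)) - 0 ^ j * ∏ k ∈ s, α k| ≤ η := by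
  have h0 : 0 ≤ η := (abs_nonneg _).trans (h 0)
  induction s using Finset.induction_on generalizing j with
  | empty => simpa using h j
  | insert a s ha ih =>
    have ih' := ih fun k hk => hs k (Finset.mem_insert_of_mem hk)
    have e : ∑ i, c i * (z i ^ j * ∏ k ∈ insert a s, (α k + β k * z i)) -
        0 ^ j * ∏ k ∈ insert a s, α k =
        α a * (∑ i, c i * (z i ^ j * ∏ k ∈ s, (α k + β k * z i)) - 0 ^ j * ∏ k ∈ s, α k) +
        β a * (∑ i, c i * (z i ^ (j + 1) * ∏ k ∈ s, (α k + β k * z i)) -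
          0 ^ (j + 1) * ∏ k ∈ s, α k) := by
      simp only [Finset.prod_insert ha, mul_sub, Finset.mul_sum, pow_succ, mul_zero, zero_mul,
        sub_zero]
      rw [sub_add_eq_add_sub, ← Finset.sum_add_distrib]
      congr 1
      · exact Finset.sum_congr rfl fun i _ => by ring
      · ring
    rw [e]
    refine (abs_add_le _ _).trans ?_
    rw [abs_mul, abs_mul]
    have h1 := mul_le_mul_of_nonneg_left (ih' j) (abs_nonneg (α a))
    have h2 := mul_le_mul_of_nonneg_left (ih' (j + 1)) (abs_nonneg (β a))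
    have h3 := mul_le_mul_of_nonneg_right (hs a (Finset.mem_insert_self _ _)) h0
    linarith

theorem p_LAM :
    S_LAM := by
  intro δ hδ η hη
  obtain ⟨N, Q, hN2, hN, hd, h1, hQ, hη'⟩ :=
    exists_poly (δ / 2) (min η (δ / 2)) (by positivity) (by positivity)
  have hN' : (2 : ℝ) ≤ N := by
    obtain ⟨k, rfl⟩ := hN2
    exact_mod_cast (by omega : 2 ≤ k + k)
  have hp : (0 : ℝ) < 2 / N := by positivity
  have hq : 2 / (N : ℝ) ≤ 1 := by rw [div_le_one (by linarith)]; exact hN'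
  have hb0 : (0 : ℝ) ≤ 1 - 2 / N := by linarith
  have hb1 : (1 : ℝ) - 2 / N ≤ 1 := by linarith
  refine ⟨Q.natDegree + 1, fun i => Q.coeff i, fun i => (1 - 2 / N) ^ (i.1 + 1),
    fun i => ⟨?_, pow_le_one₀ hb0 hb1⟩, fun ι s α β hs => ?_⟩
  · have h2 := one_add_mul_le_pow (a := -(2 / (N : ℝ))) (by linarith) (i.1 + 1)
    have h3 : (i.1 : ℝ) ≤ Q.natDegree := by exact_mod_cast Nat.lt_succ_iff.1 i.2
    have h4 := mul_le_mul_of_nonneg_right h3 hp.le
    have h5 := hη'.trans (min_le_right _ _)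
    have h6 : 2 * (Q.natDegree : ℝ) / N = Q.natDegree * (2 / N) := by ring
    rw [← sub_eq_add_neg] at h2
    push_cast at h2
    linarith
  · have := lamw_ind (η := η) (fun i : Fin (Q.natDegree + 1) => Q.coeff i)
      (fun i => (1 - 2 / (N : ℝ)) ^ (i.1 + 1)) (fun j => ?_) s α β hs 0
    · simpa using this
    have e : ∑ i : Fin (Q.natDegree + 1), Q.coeff i * ((1 - 2 / (N : ℝ)) ^ (i.1 + 1)) ^ j =
        (1 - 2 / (N : ℝ)) ^ j * Q.eval ((1 - 2 / (N : ℝ)) ^ j) := by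
      rw [Polynomial.eval_eq_sum_range, Finset.mul_sum, ← Fin.sum_univ_eq_sum_range
        fun i => (1 - 2 / (N : ℝ)) ^ j * (Q.coeff i * ((1 - 2 / (N : ℝ)) ^ j) ^ i)]
      generalize 1 - 2 / (N : ℝ) = b
      exact Finset.sum_congr rfl fun i _ => by ring
    rw [e]
    rcases j with _ | j
    · simpa [h1] using hη.le
    · have a0 : (0 : ℝ) ≤ (1 - 2 / N) ^ (j + 1) := pow_nonneg hb0 _
      have a1 : ((1 : ℝ) - 2 / N) ^ (j + 1) ≤ 1 - 2 / N :=
        pow_le_of_le_one hb0 hb1 (Nat.succ_ne_zero j)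
      have a2 := (hQ _ (by linarith) a1).trans (min_le_left _ _)
      rw [zero_pow (Nat.succ_ne_zero j), sub_zero, abs_mul, abs_of_nonneg a0]
      exact (mul_le_of_le_one_left (abs_nonneg _) (a1.trans hb1)).trans a2

end Pool.Agent.P.MP_bf3635_an.N
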