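import Pool.Agent.P.MP_bf3635_an.N.Iface

/-! Step MAIN. -/

set_option autoImplicit false

noncomputable section

namespace Pool.Agent.P.MP_bf3635_an.N

open Classical Filter Topology Pool.Agent.P.MP_bf3635_an.Ev

theorem mainw_key (hHEL : S_HEL) {G : Type} [CommGroup G] [TopologicalSpace G]
    [DiscreteTopology G] (p : Pack2 G) (C1 : ℝ) : ∃ r ∈ idealI fourierChar p.E,
      ∀ x ∈ idealI fourierChar p.E,
        ‖Ideal.Quotient.mk (idealJ fourierChar p.E).closure x‖ ≤ C1 →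
        1 < ‖Ideal.Quotient.mk (idealJ fourierChar p.E).closure (r - r * x)‖ := by
  have hC := p.pos
  have hK : 0 < 4 * p.C * (1 + |C1|) + 3 := by positivity
  obtain ⟨e, he1, he2⟩ := p.bad (4 * p.C * (1 + |C1|) + 3)⁻¹ (inv_pos.2 hK)
  obtain ⟨a, ha1, ha2⟩ := hHEL G p e 1 one_pos he1
  refine ⟨e - a, mem_idealI.2 fun γ hγ => by rw [fourier_sub, ha2 γ hγ, sub_self],
    fun x hx h1 => lt_of_not_ge fun h2 => ?_⟩
  have h3 : ‖Ideal.Quotient.mk (idealJ fourierChar p.E).closure (1 - x)‖ ≤ 1 + |C1| := by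
    rw [map_sub]
    refine (norm_sub_le _ _).trans (add_le_add ?_ (h1.trans (le_abs_self _)))
    exact (Ideal.Quotient.norm_mk_le _ _).trans norm_one.le
  have h4 : ‖Ideal.Quotient.mk (idealJ fourierChar p.E).closure (e * (1 - x))‖ ≤
      4 * p.C * (1 + |C1|) + 1 := by
    rw [show e * (1 - x) = a * (1 - x) + (e - a - (e - a) * x) by ring, map_add, map_mul]
    refine (norm_add_le _ _).trans (add_le_add ?_ h2)
    exact norm_mul_le_of_le ((Ideal.Quotient.norm_mk_le _ _).trans (by linarith)) h3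
  obtain ⟨f, hf1, hf2⟩ := Ideal.Quotient.norm_mk_lt
    (Ideal.Quotient.mk (idealJ fourierChar p.E).closure (e * (1 - x))) one_pos
  obtain ⟨j, hj, hd⟩ := Metric.mem_closure_iff.1 (Ideal.Quotient.eq.1 hf1.symm) 1 one_pos
  obtain ⟨V, hV, hj'⟩ := mem_idealJ.1 hj
  have h5 := he2 (e * (1 - x) - j) (1 - x)
    (by
      filter_upwards [hV] with γ hγ
      rw [fourier_sub, hj' γ hγ, sub_zero, fourier_mul])
    fun γ hγ => by rw [fourier_sub, fourier_one, mem_idealI.1 hx γ hγ, sub_zero]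
  have h6 := norm_add_le f (e * (1 - x) - f - j)
  rw [show f + (e * (1 - x) - f - j) = e * (1 - x) - j by ring] at h6
  rw [dist_eq_norm] at hd
  rw [← div_eq_inv_mul, one_le_div hK] at h5
  linarith

theorem p_MAIN (hBAI : S_BAI) (hPACK : S_PACK) (hHEL : S_HEL) (hSW : S_SW) :
    S_MAIN := by
  intro G _ _ _ _
  obtain ⟨p⟩ := hPACK G
  have hC := p.pos
  refine ⟨p.E, p.cpt, hSW G p.E (4 * p.C) p.cpt (by positivity) (hHEL G p), ?_, fun h => ?_⟩
  · refine lt_of_le_of_ne (closure_idealJ_le fourierChar p.E) fun h => ?_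
    obtain ⟨r, hr, k⟩ := mainw_key hHEL p 0
    have h1 := k 0 (zero_mem _) (by simp)
    rw [mul_zero, sub_zero, Ideal.Quotient.eq_zero_iff_mem.2 (h ▸ hr), norm_zero] at h1
    linarith
  · obtain ⟨C, hb⟩ := hBAI (RE fourierChar p.E) h
    obtain ⟨r, hr, k⟩ := mainw_key hHEL p C
    obtain ⟨⟨_, x, hx, rfl⟩, h1, h2⟩ := hb ⟨_, r, hr, rfl⟩ 1 one_pos
    refine (k x hx h1).not_ge ?_
    rw [map_sub, map_mul]
    exact h2

end Pool.Agent.P.MP_bf3635_an.N
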