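import Pool.Agent.P.MP_bf3635_an.N.Iface

/-! Step NEW. -/

set_option autoImplicit false

noncomputable section

namespace Pool.Agent.P.MP_bf3635_an.N

open Classical Filter Topology Pool.Agent.P.MP_bf3635_an.Ev

theorem p_NEW (hQA : S_QA) :
    S_NEW := by
  intro G _ _ _ ζ ε hε
  refine ⟨min (1 / 2) ((ε / 2) ^ 2), by positivity, fun M N hB a x P' D h1 h2 => ?_⟩
  obtain ⟨h, k1, k2⟩ := hB.app false 0 (by simp)
  have w0 : ∀ ω : Fin N → Let, 0 ≤ wt3 (1 / 4) (1 / 4) ω :=
    wt3_nonneg (by norm_num) (by norm_num) (by norm_num) (by norm_num)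
  have hs : 1 / 2 ≤ ∑ ω : Fin N → Let,
      if kd 0 ω ∈ BB ζ N M true ∧ kd 1 ω ∈ BB ζ N M false then wt3 (1 / 4) (1 / 4) ω else 0 := by
    have e := Finset.sum_filter_add_sum_filter_not Finset.univ
      (fun ω : Fin N → Let => kd 0 ω ∈ BB ζ N M true ∧ kd 1 ω ∈ BB ζ N M false)
      (wt3 (1 / 4) (1 / 4))
    rw [wt3_sum] at e
    have g := hB.good.trans (min_le_left _ _)
    rw [← Finset.sum_filter]
    linarith
  refine ⟨hε.le, Fin N → Let, inferInstance, fun ω => x * pw a (kd 0 ω), fun ω =>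
    if kd 0 ω ∈ BB ζ N M true ∧ kd 1 ω ∈ BB ζ N M false then wt3 (1 / 4) (1 / 4) ω else 0,
    fun ω => ?_, fun ω hω => ?_, by linarith, fun f hf => ?_⟩
  · beta_reduce
    split_ifs
    · exact w0 ω
    · exact le_rfl
  · refine h1 _ ?_
    by_contra h3
    exact hω (if_neg fun h4 => h3 h4.1)
  · have h3 := hQA G (Fin N → Let) (fun ω => x * pw a (kd 0 ω)) (wt3 (1 / 4) (1 / 4)) h (ε / 2)
      (by positivity) w0 (wt3_sum _ _ _) (fun g => by
        have h4 := (k2 (fun c => evg g (a c)) fun c => norm_evg _ _).trans (min_le_right _ _)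
        simp only [map_mul, evg_pw, mul_left_comm _ (evg g x)]
        rwa [← Finset.mul_sum, norm_mul, norm_evg, one_mul]) f
      (fun ω hω => hf _ (h2 _ (k1 ω hω)).1 (h2 _ (k1 ω hω)).2)
    refine (Finset.sum_le_sum fun ω _ => mul_le_mul_of_nonneg_right ?_ (norm_nonneg _)).trans
      (h3.trans (mul_le_mul_of_nonneg_right ?_ (norm_nonneg _)))
    · split_ifs
      · exact le_rfl
      · exact w0 ω
    · nlinarith

end Pool.Agent.P.MP_bf3635_an.N
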