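import Pool.Agent.P.MP_bf3635_an.N.Iface

/-! Step PACK. -/

set_option autoImplicit false

noncomputable section

namespace Pool.Agent.P.MP_bf3635_an.N

open Classical Filter Topology Pool.Agent.P.MP_bf3635_an.Ev

theorem packw_ep (k : ℕ) : ep k = 2 * ep (k + 1) := by
  simp only [ep, pow_succ]
  ring

theorem packw_low {G : Type} [CommGroup G] [TopologicalSpace G] [DiscreteTopology G]
    {P : Finset (PontryaginDual G)} {D : PontryaginDual G → Prop} {η : ℝ} (h : Good P D η)
    (f : L1 G) (h0 : ∀ x ∈ P, ¬ D x → fourier f x = 0)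
    (h1 : ∀ x ∈ P, D x → 1 / 2 ≤ ‖fourier f x‖) : 1 ≤ 2 * η * ‖f‖ := by
  obtain ⟨-, ι, _, pt, μ, m0, m1, m2, m3⟩ := h
  have a : (1 / 2) * ∑ i, μ i ≤ ∑ i, μ i * ‖fourier f (pt i)‖ := by
    rw [Finset.mul_sum]
    refine Finset.sum_le_sum fun i _ => ?_
    by_cases e : μ i = 0
    · simp [e]
    · rw [mul_comm]
      exact mul_le_mul_of_nonneg_left (h1 _ (m1 i e).1 (m1 i e).2) (m0 i)
  have b := a.trans (m3 f h0)
  refine le_of_mul_le_mul_right ?_ m2
  linarith

theorem p_PACK (hSTEP : S_STEP) :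
    S_PACK := by
  intro G _ _ _ _
  obtain ⟨H, χ, M, hH, hχ, hM⟩ := exists_setup (G := G)
  obtain ⟨ζ, z1, z2, hL⟩ := exists_lim hH hM
  obtain ⟨C0, C1, hS⟩ := hSTEP G H ζ z1 z2 hL
  obtain ⟨s0, -, -⟩ := exists_sg (H := H) {1} (Finset.singleton_nonempty _)
    (fun x hx => by rw [Finset.mem_singleton.1 hx]; exact H.one_mem) univ_mem
  choose nxt n1 n2 n3 n4 n6 using fun (s : Sg H) (m : ℕ) => hS s (χ m.unpair.1) _ (ep_pos m)
  let S : ℕ → Sg H := fun m => Nat.rec s0 (fun m s => nxt s m) m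
  have hR : ∀ m, (S m).Ref (S (m + 1)) := fun m => n1 _ m
  have hcon : ∀ {m k} {F : PontryaginDual G → ℂ}, m ≤ k → (S m).Con F → (S k).Con F :=
    fun {m k F} h hF => by
      induction k, h using Nat.le_induction with
      | base => exact hF
      | succ k _ ih => exact (hR k).con ih
  let K : ℕ → Set (PontryaginDual G) := fun m =>
    H ∩ ⋃ x ∈ (S m).P, (x⁻¹ * ·) ⁻¹' closure (S m).U
  have K1 : ∀ m, IsClosed (K m) := fun m => hH.inter (isClosed_biUnion_finset fun x _ =>
    isClosed_closure.preimage (continuous_const_mul _))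
  have K2 : ∀ m, ∀ γ ∈ K (m + 1), ∃ x ∈ (S m).P, x⁻¹ * γ ∈ (S m).U := fun m γ hγ => by
    obtain ⟨x', hx', a⟩ := Set.mem_iUnion₂.1 hγ.2
    obtain ⟨x, hx, y, rfl, hy⟩ := hR m x' hx'
    refine ⟨x, hx, ?_⟩
    have : y * ((x * y)⁻¹ * γ) ∈ (S m).U := hy _ a
    rwa [mul_inv_rev, mul_assoc, mul_inv_cancel_left] at this
  have K3 : Antitone K := antitone_nat_of_succ_le fun m γ hγ => by
    obtain ⟨x, hx, a⟩ := K2 m γ hγ
    exact ⟨hγ.1, Set.mem_iUnion₂.2 ⟨x, hx, subset_closure a⟩⟩
  have hold : ∀ m p, (S m).Hold p → ∀ γ ∈ ⋂ m, K m, p γ := fun m p hp γ hγ => by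
    obtain ⟨x, hx, a⟩ := K2 m γ (Set.mem_iInter.1 hγ (m + 1))
    simpa using hp x hx _ a
  refine ⟨{
    E := ⋂ m, K m
    χ := χ
    C := 2 * C0
    Fac := fun m =>
      { carrier := {φ | (S m).Con (fourier φ)}
        zero_mem' := fun x _ y _ => by rw [fourier_zero, fourier_zero]
        add_mem' := fun ha hb x hx y hy => by
          rw [fourier_add, fourier_add, ha x hx y hy, hb x hx y hy]
        smul_mem' := fun c a ha x hx y hy => by rw [fourier_smul, fourier_smul, ha x hx y hy] }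
    cpt := (isClosed_iInter K1).isCompact
    pos := by positivity
    mono := fun m k h φ hφ => hcon h hφ
    rep := fun g => ?_
    app := fun i θ hθ => ?_
    hel := fun m φ hφ ρ hρ hb => ?_
    bad := fun η hη => ?_ }⟩
  · obtain ⟨i, hi⟩ := hχ g
    refine ⟨i, ?_⟩
    rw [show ch g - ch (χ i) = ch (χ i) * (ch (g * (χ i)⁻¹) - 1) by
      rw [mul_sub, ← ch_mul, mul_one, mul_comm (χ i), inv_mul_cancel_right]]
    refine Ideal.mul_mem_left _ _ (sub_one_mem fun γ hγ => ?_)
    have a := hi γ (Set.mem_iInter.1 hγ 0).1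
    have b : evg (χ i) γ ≠ 0 := norm_ne_zero_iff.1 (by rw [norm_evg]; exact one_ne_zero)
    refine mul_right_cancel₀ b ?_
    rw [← evg_mul, inv_mul_cancel_right, one_mul, a]
  · obtain ⟨k, hk⟩ := (ep_lim.eventually (ge_mem_nhds hθ)).exists
    obtain ⟨φ, a, b⟩ := n3 (S (i.pair k)) (i.pair k)
    rw [Nat.unpair_pair] at a
    exact ⟨i.pair k + 1, φ, b, a.trans ((ep_anti (Nat.right_le_pair i k)).trans hk)⟩
  · let c : PontryaginDual G → ℂ := fun x =>
      if x ∈ (S m).P ∧ ∃ y ∈ (S m).U, x * y ∈ ⋂ m, K m then fourier φ x else 0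
    have hc : ∀ x, ‖c x‖ ≤ ρ := fun x => by
      simp only [c]
      split_ifs with h
      · obtain ⟨hx, y, hy, a⟩ := h
        rw [← hφ x hx y hy]
        exact hb _ a
      · simpa using hρ.le
    obtain ⟨a1, ha1, e1⟩ := n6 (S m) m (fun x => (c x).re / ρ) fun x _ => by
      rw [abs_div, abs_of_pos hρ, div_le_one hρ]
      exact (Complex.abs_re_le_norm _).trans (hc x)
    obtain ⟨a2, ha2, e2⟩ := n6 (S m) m (fun x => (c x).im / ρ) fun x _ => by
      rw [abs_div, abs_of_pos hρ, div_le_one hρ]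
      exact (Complex.abs_im_le_norm _).trans (hc x)
    refine ⟨(ρ : ℂ) • (a1 + Complex.I • a2), ?_, fun γ hγ => ?_⟩
    · rw [norm_smul, Complex.norm_real, Real.norm_of_nonneg hρ.le, mul_comm]
      gcongr
      refine (norm_add_le _ _).trans ?_
      rw [norm_smul, Complex.norm_I]
      linarith
    · obtain ⟨x, hx, a⟩ := K2 m γ (Set.mem_iInter.1 hγ (m + 1))
      have f1 := hold (m + 1) _ e1 γ hγ x hx _ a (mul_inv_cancel_left x γ).symm
      have f2 := hold (m + 1) _ e2 γ hγ x hx _ a (mul_inv_cancel_left x γ).symm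
      have e3 : c x = fourier φ γ := by
        rw [← mul_inv_cancel_left x γ, hφ x hx _ a]
        exact if_pos ⟨hx, _, a, by rw [mul_inv_cancel_left]; exact hγ⟩
      have hρ' : (ρ : ℂ) ≠ 0 := by exact_mod_cast hρ.ne'
      have e4 : fourier ((ρ : ℂ) • (a1 + Complex.I • a2)) γ - fourier φ γ =
          ρ * ((fourier a1 γ - (((c x).re / ρ : ℝ) : ℂ)) +
            Complex.I * (fourier a2 γ - (((c x).im / ρ : ℝ) : ℂ))) := by
        rw [fourier_smul, fourier_add, fourier_smul, ← e3]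
        conv_lhs => rw [← Complex.re_add_im (c x)]
        push_cast
        field_simp
        ring
      rw [e4, norm_mul, Complex.norm_real, Real.norm_of_nonneg hρ.le, div_eq_mul_inv ρ 4]
      refine mul_le_mul_of_nonneg_left ((norm_add_le _ _).trans ?_) hρ.le
      rw [norm_mul, Complex.norm_I]
      linarith
  · obtain ⟨m, hm⟩ := (ep_lim.eventually (ge_mem_nhds (show 0 < η / 6 by positivity))).exists
    obtain ⟨D, e, d1, d2, d3⟩ := n4 (S m) m
    have key : ∀ k, m + 1 ≤ k → (S k).Con D ∧ Good (S k).P D (3 * ep m - 2 * ep k) ∧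
        (S k).Hold fun γ => fourier e γ = if D γ then 1 else 0 := fun k h => by
      induction k, h using Nat.le_induction with
      | base => exact ⟨d1, d2.mono (by linarith [packw_ep m, ep_pos m]), d3⟩
      | succ k _ ih =>
        exact ⟨(hR k).con ih.1, (n2 (S k) k D _ ih.1 (by linarith [ep_le m, ep_pos k]) ih.2.1).mono
          (by linarith [packw_ep k]), (hR k).hold ih.2.2⟩
    refine ⟨e, fun γ hγ => ?_, fun f u h1 h2 => ?_⟩
    · rw [hold (m + 1) _ d3 γ hγ]
      split_ifs <;> simp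
    · have h3 : ∀ᶠ γ in 𝓝ˢ (⋂ m, K m), ‖fourier u γ - 1‖ < 1 / 2 :=
        (isOpen_lt ((continuous_fourier u).sub continuous_const).norm continuous_const).mem_nhdsSet.2
          fun γ hγ => by simp [h2 γ hγ]
      obtain ⟨k, hk⟩ := exists_subset_nhds_of_compactSpace K3.directed_ge K1
        (mem_nhdsSet_iff_forall.1 (h1.and h3))
      obtain ⟨-, k2, k3⟩ := key (max k (m + 1)) (le_max_right _ _)
      have h4 : ∀ x ∈ (S (max k (m + 1))).P,
          fourier f x = (if D x then 1 else 0) * fourier u x ∧ ‖fourier u x - 1‖ < 1 / 2 :=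
        fun x hx => by
          have a := hk (K3 (le_max_left k (m + 1)) ⟨(S _).sub x hx, Set.mem_iUnion₂.2
            ⟨x, hx, subset_closure (by simpa using (S _).one)⟩⟩)
          have b := k3 x hx 1 (S _).one
          simp only [mul_one] at b
          exact ⟨b ▸ a.1, a.2⟩
      have h5 := packw_low k2 f (fun x hx n => by rw [(h4 x hx).1, if_neg n, zero_mul])
        fun x hx n => by
          rw [(h4 x hx).1, if_pos n, one_mul]
          have := norm_sub_norm_le (1 : ℂ) (fourier u x)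
          rw [norm_one, norm_sub_rev] at this
          linarith [(h4 x hx).2]
      refine h5.trans (mul_le_mul_of_nonneg_right ?_ (norm_nonneg f))
      linarith [ep_pos (max k (m + 1))]

end Pool.Agent.P.MP_bf3635_an.N
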