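import Pool.Agent.P.MP_bf3635_an.N.Iface

/-! Step QA. -/

set_option autoImplicit false

noncomputable section

namespace Pool.Agent.P.MP_bf3635_an.N

open Classical Filter Topology Pool.Agent.P.MP_bf3635_an.Ev

theorem qaw_star {G : Type} [CommGroup G] [TopologicalSpace G] (f : L1 G) :
    ∃ f' : L1 G, ‖f'‖ = ‖f‖ ∧ ∀ γ, fourier f' γ = (starRingEnd ℂ) (fourier f γ) := by
  have h1 : HasSum (fun g : G => ‖(starRingEnd ℂ) (f.val g⁻¹)‖) ‖f‖ := by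
    simp only [Complex.norm_conj]
    exact (Equiv.inv G).hasSum_iff.2 f.hasSum_norm
  refine ⟨L1.mk _ h1.summable, (L1.hasSum_norm _).unique h1, fun γ => ?_⟩
  rw [fourier, fourier, Complex.conj_tsum, ← (Equiv.inv G).tsum_eq]
  refine tsum_congr fun g => ?_
  simp only [L1.val_mk, Equiv.inv_apply, inv_inv, map_mul, map_inv, Circle.coe_inv_eq_conj,
    Complex.conj_conj]

theorem qaw_pair {G : Type} [CommGroup G] [TopologicalSpace G] {Ω : Type} [Fintype Ω]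
    (p : Ω → PontryaginDual G) (c : Ω → ℂ) {δ : ℝ} (h : ∀ g, ‖∑ ω, c ω * evg g (p ω)‖ ≤ δ)
    (F : L1 G) : ‖∑ ω, c ω * fourier F (p ω)‖ ≤ ‖F‖ * δ := by
  let fc : PontryaginDual G → L1 G →L[ℂ] ℂ := fun γ =>
    ⟨(fourierChar γ).toLinearMap, continuous_fourier_left γ⟩
  have e : ∀ F : L1 G, (∑ ω, c ω • fc (p ω)) F = ∑ ω, c ω * fourier F (p ω) := fun F => by
    rw [sum_apply]
    rfl
  rw [← e]
  refine L1.norm_clm_le _ δ (fun g => ?_) F
  rw [e]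
  simp only [fourier_delta]
  exact h g⁻¹

theorem p_QA :
    S_QA := by
  intro G _ _ _ Ω _ p W h ε hε hW h1 hc f hf
  obtain ⟨f', e1, e2⟩ := qaw_star f
  have h2 := qaw_pair p _ hc (f * f')
  have h3 : ∑ ω, ((W ω - h ω : ℝ) : ℂ) * fourier (f * f') (p ω) =
      ((∑ ω, W ω * ‖fourier f (p ω)‖ ^ 2 : ℝ) : ℂ) := by
    rw [Complex.ofReal_sum]
    refine Finset.sum_congr rfl fun ω _ => ?_
    rw [fourier_mul, e2, Complex.mul_conj']
    by_cases h0 : h ω = 0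
    · rw [h0]
      push_cast
      ring
    · simp [hf ω h0]
  have h4 : ∑ ω, W ω * ‖fourier f (p ω)‖ ^ 2 ≤ (ε * ‖f‖) ^ 2 := by
    rw [h3, Complex.norm_real] at h2
    have h5 := norm_mul_le f f'
    rw [e1] at h5
    have h6 := mul_le_mul_of_nonneg_right h5 (sq_nonneg ε)
    calc _ ≤ _ := le_abs_self _
      _ ≤ _ := h2
      _ ≤ _ := h6
      _ = _ := by ring
  obtain ⟨m, hm⟩ : ∃ m, m = ∑ ω, W ω * ‖fourier f (p ω)‖ := ⟨_, rfl⟩
  have h7 : 0 ≤ ∑ ω, W ω * (‖fourier f (p ω)‖ - m) ^ 2 :=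
    Finset.sum_nonneg fun ω _ => mul_nonneg (hW ω) (sq_nonneg _)
  have h8 : ∑ ω, W ω * (‖fourier f (p ω)‖ - m) ^ 2 = ∑ ω, W ω * ‖fourier f (p ω)‖ ^ 2 -
      2 * m * ∑ ω, W ω * ‖fourier f (p ω)‖ + m ^ 2 * ∑ ω, W ω := by
    rw [Finset.mul_sum, Finset.mul_sum, ← Finset.sum_sub_distrib, ← Finset.sum_add_distrib]
    exact Finset.sum_congr rfl fun ω _ => by ring
  rw [← hm, h1] at h8
  rw [← hm]
  exact (le_abs_self m).trans (abs_le_of_sq_le_sq' (by linarith) (by positivity) |> abs_le.2)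

end Pool.Agent.P.MP_bf3635_an.N
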