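import Pool.Agent.P.MP_bf3635_an.N.Iface

/-! Step STEP. -/

set_option autoImplicit false

noncomputable section

namespace Pool.Agent.P.MP_bf3635_an.N

open Classical Filter Topology Pool.Agent.P.MP_bf3635_an.Ev

theorem stepw_multi (hONE : S_ONE) {G : Type} [CommGroup G] [TopologicalSpace G]
    [DiscreteTopology G] {H : Subgroup (PontryaginDual G)} {ζ : ℂ} (h1 : ‖ζ‖ = 1) (h2 : ζ ≠ 1)
    (hL : Lim H ζ) (s : Sg H) (l : List (PontryaginDual G → Bool)) (hl : ∀ ψ ∈ l, s.Con ψ)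
    {ε : ℝ} (hε : 0 < ε) : ∃ s' : Sg H, s.Ref s' ∧ s.Keep s' ε ∧ ∀ ψ ∈ l, ∃ w : L1 G,
      ‖w‖ ≤ 1 ∧ s'.Hold fun γ => ‖fourier w γ - mm ζ (ψ γ)‖ ≤ 2 * th ζ := by
  induction l generalizing ε with
  | nil =>
    obtain ⟨s', a, b, -⟩ := s.exists_shrink univ_mem
    exact ⟨s', a, Sg.keep_of_eq b hε.le, by simp⟩
  | cons ψ l ih =>
    obtain ⟨s', a1, a2, a3⟩ := ih (fun φ h => hl φ (List.mem_cons_of_mem _ h))
      (ε := ε / 2) (by positivity)
    obtain ⟨s'', b1, b2, w, b3, b4⟩ := (hONE G H ζ h1 h2 hL s' (ε / 2) (by positivity)).1 ψ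
      (a1.con (hl ψ List.mem_cons_self))
    refine ⟨s'', a1.trans b1, ?_, ?_⟩
    · simpa using Sg.Keep.trans a1 a2 b2 (by positivity)
    · simp only [List.forall_mem_cons]
      refine ⟨⟨w, b3, b4⟩, fun φ h => ?_⟩
      obtain ⟨a, c1, c2⟩ := a3 φ h
      exact ⟨a, c1, b1.hold c2⟩

theorem stepw_est {θ p m : ℝ} (hθ : 0 < θ) (e : p - m = 32 * θ) {z : ℂ} {c r : ℝ}
    (hc : c = 1 ∧ r = p ∨ c = -1 ∧ r = m) (hz : ‖z - r‖ ≤ 2 * θ) :
    ‖((1 / (16 * θ) : ℝ) : ℂ) * z - (((p + m) / (32 * θ) : ℝ) : ℂ) * 1 - c‖ ≤ 1 / 8 := by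
  have e1 : (p + m) / (32 * θ) + c = 1 / (16 * θ) * r := by
    obtain rfl : p = m + 32 * θ := by linarith
    rcases hc with ⟨rfl, rfl⟩ | ⟨rfl, rfl⟩ <;> field_simp <;> ring
  have e2 : ((1 / (16 * θ) : ℝ) : ℂ) * z - (((p + m) / (32 * θ) : ℝ) : ℂ) * 1 - c =
      ((1 / (16 * θ) : ℝ) : ℂ) * (z - r) := by
    rw [mul_one, sub_sub, ← Complex.ofReal_add, e1, Complex.ofReal_mul, mul_sub]
  rw [e2, norm_mul, Complex.norm_real, Real.norm_of_nonneg (by positivity)]
  refine (mul_le_mul_of_nonneg_left hz (by positivity)).trans (le_of_eq ?_)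
  field_simp
  norm_num

theorem p_STEP (hONE : S_ONE) (hINT : S_INT) :
    S_STEP := by
  intro G _ _ _ H ζ h1 h2 hL
  have hθ := th_pos h1 h2
  refine ⟨1 / (16 * th ζ) + |(mm ζ true + mm ζ false) / (32 * th ζ)|, by positivity,
    fun s g ε hε => ?_⟩
  let ψ : Finset (PontryaginDual G) → PontryaginDual G → Bool := fun S γ =>
    decide (∃ x ∈ S, ∃ y ∈ s.U, γ = x * y)
  have hψ : ∀ S ⊆ s.P, ∀ x ∈ s.P, ∀ y ∈ s.U, ψ S (x * y) = decide (x ∈ S) := fun S hS x hx y hy =>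
    decide_eq_decide.2 ⟨fun ⟨x', a, y', b, e⟩ => s.sep x hx x' (hS a) y hy y' b e ▸ a,
      fun a => ⟨x, a, y, hy, rfl⟩⟩
  obtain ⟨s1, a1, a2, a3⟩ := stepw_multi hONE h1 h2 hL s (s.P.powerset.toList.map ψ)
    (fun φ h => by
      obtain ⟨S, hS, rfl⟩ := List.mem_map.1 h
      have hS' := Finset.mem_powerset.1 (Finset.mem_toList.1 hS)
      intro x hx y hy
      rw [hψ S hS' x hx y hy, ← hψ S hS' x hx 1 s.one, mul_one]) (ε := ε / 2) (by positivity)
  obtain ⟨s2, b1, b2, D, b3, b4⟩ := (hONE G H ζ h1 h2 hL s1 (ε / 2) (by positivity)).2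
  obtain ⟨K, -, hK⟩ := hINT G s2.P
  obtain ⟨e, -, he⟩ := hK fun γ => if D γ then 1 else 0
  obtain ⟨s3, c1, c2, c3⟩ := s2.exists_con (F := fourier e) fun x hx => by
    rw [(he x hx).self_of_nhds]
    exact he x hx
  obtain ⟨s4, d1, d2, d3⟩ := s3.exists_local g hε
  have r14 : s1.Ref s4 := (b1.trans c1).trans d1
  have k2 : s.Keep s2 ε := by simpa using Sg.Keep.trans a1 a2 b2 (by positivity)
  refine ⟨s4, a1.trans r14, fun D' η u v w => by rw [d2, c2]; exact k2 D' η u v w, d3,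
    ⟨D, e, (c1.trans d1).con b3, by rw [d2, c2]; exact b4.mono (by linarith), d1.hold ?_⟩, ?_⟩
  · intro x hx u hu
    have hD : D (x * u) = D x := c1.con b3 x hx u hu
    rw [c3 x hx u hu, (he x (c2 ▸ hx)).self_of_nhds]
    simp only [hD]
  refine cube_convex s.P _ ?_ fun c hc => ?_
  · rintro c c' t t0 t1 ⟨a, ha, hac⟩ ⟨a', ha', hac'⟩
    refine ⟨(t : ℂ) • a + ((1 - t : ℝ) : ℂ) • a', (norm_add_le _ _).trans ?_,
      fun p hp v hv x hx y hy e => ?_⟩
    · rw [norm_smul, norm_smul, Complex.norm_real, Complex.norm_real, Real.norm_of_nonneg t0,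
        Real.norm_of_nonneg (sub_nonneg.2 t1)]
      nlinarith
    · have f1 := hac p hp v hv x hx y hy e
      have f2 := hac' p hp v hv x hx y hy e
      have f3 : fourier ((t : ℂ) • a + ((1 - t : ℝ) : ℂ) • a') (p * v) -
          ((t * c x + (1 - t) * c' x : ℝ) : ℂ) = (t : ℂ) * (fourier a (p * v) - c x) +
            ((1 - t : ℝ) : ℂ) * (fourier a' (p * v) - c' x) := by
        rw [fourier_add, fourier_smul, fourier_smul]
        push_cast
        ring
      rw [f3]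
      refine (norm_add_le _ _).trans ?_
      rw [norm_mul, norm_mul, Complex.norm_real, Complex.norm_real, Real.norm_of_nonneg t0,
        Real.norm_of_nonneg (sub_nonneg.2 t1)]
      nlinarith
  · obtain ⟨w, f1, f2⟩ := a3 (ψ (s.P.filter fun x => c x = 1)) (List.mem_map_of_mem
      (Finset.mem_toList.2 (Finset.mem_powerset.2 (Finset.filter_subset _ _))))
    refine ⟨((1 / (16 * th ζ) : ℝ) : ℂ) • w -
      (((mm ζ true + mm ζ false) / (32 * th ζ) : ℝ) : ℂ) • (1 : L1 G), (norm_sub_le _ _).trans ?_,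
      fun p hp v hv x hx y hy e => ?_⟩
    · rw [norm_smul, norm_smul, norm_one, mul_one, Complex.norm_real, Complex.norm_real,
        Real.norm_of_nonneg (by positivity), Real.norm_eq_abs]
      exact add_le_add (mul_le_of_le_one_right (by positivity) f1) le_rfl
    · have f3 : ‖fourier w (p * v) - _‖ ≤ _ := r14.hold f2 p hp v hv
      rw [fourier_sub, fourier_smul, fourier_smul, fourier_one]
      refine stepw_est hθ (by rw [th]; ring) ?_ f3
      rw [e, hψ _ (Finset.filter_subset _ _) x hx y hy]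
      rcases hc x hx with d | d
      · exact .inl ⟨d, by simp [hx, d]⟩
      · have : ¬ (-1 : ℝ) = 1 := by norm_num
        exact .inr ⟨d, by simp [d, this]⟩

end Pool.Agent.P.MP_bf3635_an.N
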