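import Pool.Agent.P.MP_bf3635_an.N.Iface

/-! Step SW. -/

set_option autoImplicit false

noncomputable section

namespace Pool.Agent.P.MP_bf3635_an.N

open Classical Filter Topology Pool.Agent.P.MP_bf3635_an.Ev

/-- restriction of the transform to `E` -/
def sww_res {G : Type} [CommGroup G] [TopologicalSpace G] [DiscreteTopology G]
    (E : Set (PontryaginDual G)) (f : L1 G) : C(E, ℂ) :=
  ⟨fun x => fourier f x, (continuous_fourier f).comp continuous_subtype_val⟩

theorem p_SW :
    S_SW := by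
  intro G _ _ _ E K hE hK h F
  have : CompactSpace E := isCompact_iff_compactSpace.1 hE
  let R : NormedAddGroupHom (L1 G) C(E, ℂ) :=
    { toFun := sww_res E
      map_add' := fun f g => ContinuousMap.ext fun x => fourier_add f g x
      bound' := ⟨1, fun f => by
        rw [one_mul]
        exact (ContinuousMap.norm_le _ (norm_nonneg f)).2 fun x => norm_fourier_le f x⟩ }
  have hR : ∀ (f : L1 G) (x : E), R f x = fourier f x := fun _ _ => rfl
  have h1 : R.SurjectiveOnWith R.range K := by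
    rintro _ ⟨f, rfl⟩
    change ∃ g, R g = R f ∧ ‖g‖ ≤ K * ‖R f‖
    rcases (norm_nonneg (R f)).eq_or_lt with e | e
    · exact ⟨0, by rw [map_zero, norm_eq_zero.1 e.symm], by rw [norm_zero, ← e, mul_zero]⟩
    · obtain ⟨r, a, b⟩ := h f _ e fun γ hγ => (R f).norm_coe_le_norm ⟨γ, hγ⟩
      exact ⟨r, ContinuousMap.ext fun x => b x x.2, a⟩
  have h2 := controlled_closure_of_complete hK one_pos h1
  have hm : ∀ {a b : C(E, ℂ)}, (∃ f, R f = a) → (∃ f, R f = b) → ∃ f, R f = a * b := by
    rintro _ _ ⟨f, rfl⟩ ⟨g, rfl⟩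
    exact ⟨f * g, ContinuousMap.ext fun x => fourier_mul f g x⟩
  have ha : ∀ {a b : C(E, ℂ)}, (∃ f, R f = a) → (∃ f, R f = b) → ∃ f, R f = a + b := by
    rintro _ _ ⟨f, rfl⟩ ⟨g, rfl⟩
    exact ⟨f + g, map_add R f g⟩
  have hc : ∀ c : ℂ, ∃ f, R f = algebraMap ℂ C(E, ℂ) c := fun c =>
    ⟨c • 1, ContinuousMap.ext fun x => by
      rw [hR, fourier_smul, fourier_one]
      simp⟩
  let A : StarSubalgebra ℂ C(E, ℂ) :=
    { carrier := {a | (∃ f, R f = a) ∧ ∃ f, R f = star a}
      mul_mem' := fun a b => ⟨hm a.1 b.1, by rw [star_mul']; exact hm a.2 b.2⟩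
      add_mem' := fun a b => ⟨ha a.1 b.1, by rw [star_add]; exact ha a.2 b.2⟩
      algebraMap_mem' := fun c => ⟨hc c, by rw [← algebraMap_star_comm]; exact hc _⟩
      star_mem' := fun a => ⟨a.2, by rw [star_star]; exact a.1⟩ }
  have hA : A.SeparatesPoints := by
    intro x y hxy
    obtain ⟨g, hg⟩ : ∃ g, x.1 g ≠ y.1 g := by
      by_contra! hh
      exact hxy (Subtype.ext (DFunLike.ext _ _ hh))
    refine ⟨_, ⟨R (ch g), ⟨⟨_, rfl⟩, ch g⁻¹, ContinuousMap.ext fun z => ?_⟩, rfl⟩, ?_⟩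
    · rw [ContinuousMap.star_apply, hR, hR, fourier_ch, fourier_ch, evg_apply, evg_apply, map_inv,
        Circle.coe_inv_eq_conj]
      rfl
    · change R (ch g) x ≠ R (ch g) y
      rw [hR, hR, fourier_ch, fourier_ch, evg_apply, evg_apply]
      exact fun e => hg (Circle.coe_inj.1 e)
  have h3 : F ∈ closure (A : Set C(E, ℂ)) := by
    have : F ∈ A.topologicalClosure := by
      rw [ContinuousMap.starSubalgebra_topologicalClosure_eq_top_of_separatesPoints A hA]
      exact StarSubalgebra.mem_top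
    exact this
  have h4 : F ∈ R.range.topologicalClosure :=
    closure_mono (fun a (ha : a ∈ A) => (show a ∈ R.range from ha.1)) h3
  obtain ⟨f, hf, -⟩ := h2 F h4
  exact ⟨f, fun x => by rw [← hR, hf]⟩

end Pool.Agent.P.MP_bf3635_an.N
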