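import Pool.Agent.P.MP_bf3635_an.N.TBAI
import Pool.Agent.P.MP_bf3635_an.N.TLAM
import Pool.Agent.P.MP_bf3635_an.N.TCONC
import Pool.Agent.P.MP_bf3635_an.N.TBLK
import Pool.Agent.P.MP_bf3635_an.N.TQA
import Pool.Agent.P.MP_bf3635_an.N.TFEJ
import Pool.Agent.P.MP_bf3635_an.N.TINT
import Pool.Agent.P.MP_bf3635_an.N.TGEO
import Pool.Agent.P.MP_bf3635_an.N.TKEEP
import Pool.Agent.P.MP_bf3635_an.N.TNEW
import Pool.Agent.P.MP_bf3635_an.N.TONE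
import Pool.Agent.P.MP_bf3635_an.N.TSTEP
import Pool.Agent.P.MP_bf3635_an.N.TPACK
import Pool.Agent.P.MP_bf3635_an.N.THEL
import Pool.Agent.P.MP_bf3635_an.N.TSW
import Pool.Agent.P.MP_bf3635_an.N.TMAIN

/-! Assembly. -/

set_option autoImplicit false

namespace Pool.Agent.P.MP_bf3635_an.N

theorem final : S_MAIN :=
  p_MAIN p_BAI (p_PACK (p_STEP (p_ONE (p_BLK p_LAM p_CONC) p_GEO (p_KEEP p_QA p_FEJ p_INT)
    (p_NEW p_QA)) p_INT)) p_HEL p_SW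

end Pool.Agent.P.MP_bf3635_an.N
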