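import Pool.Agent.P.MP_bf3635_an.N.Base

/-! The steps of the proof. -/

set_option autoImplicit false

noncomputable section

namespace Pool.Agent.P.MP_bf3635_an.N

open Classical Filter Topology Pool.Agent.P.MP_bf3635_an.Ev

-- deps:
/-- an amenable algebra has pointwise approximate units of bounded norm -/
def S_BAI : Prop := ∀ (A : Type) [NonUnitalNormedRing A] [NormedSpace ℂ A] [IsScalarTower ℂ A A]
  [SMulCommClass ℂ A A] [CompleteSpace A], IsAmenable.{0} A →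
    ∃ C : ℝ, ∀ r : A, ∀ ε > 0, ∃ x : A, ‖x‖ ≤ C ∧ ‖r - r * x‖ ≤ ε

-- deps:
/-- nodes near `1` that recover the value at `0` -/
def S_LAM : Prop := ∀ δ > 0, ∀ η > 0, ∃ (n : ℕ) (c z : Fin n → ℝ),
  (∀ i, 1 - δ ≤ z i ∧ z i ≤ 1) ∧ ∀ (ι : Type) (s : Finset ι) (α β : ι → ℝ),
    (∀ j ∈ s, |α j| + |β j| ≤ 1) →
      |∑ i, c i * ∏ j ∈ s, (α j + β j * z i) - ∏ j ∈ s, α j| ≤ η

-- deps:
/-- concentration of the average -/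
def S_CONC : Prop := ∀ (N : ℕ) (q q' θ : ℝ) (ζ : ℂ) (d : ℤ), 0 < N → 0 ≤ q → q ≤ 1 → 0 ≤ q' →
  q' ≤ 1 → 0 < θ → ‖ζ‖ = 1 →
    ∑ ω : Fin N → Let with θ < ‖avz ζ (kd d ω) -
      (((1 - q * (1 - ζ.re)) * (1 - q' * (1 - (ζ ^ d).re)) : ℝ) : ℂ)‖, wt3 q q' ω ≤
        4 / (N * θ ^ 2)

-- deps: LAM CONC
/-- the block -/
def S_BLK : Prop := ∀ ζ : ℂ, ‖ζ‖ = 1 → ζ ≠ 1 → ∀ M : ℕ, 1 ≤ M → ∀ ε > 0, ∃ N, IsBlk ζ M ε N

-- deps: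
/-- from closeness of transforms to smallness in mean -/
def S_QA : Prop := ∀ (G : Type) [CommGroup G] [TopologicalSpace G] [DiscreteTopology G]
  (Ω : Type) [Fintype Ω] (p : Ω → PontryaginDual G) (W h : Ω → ℝ) (ε : ℝ), 0 ≤ ε →
    (∀ ω, 0 ≤ W ω) → ∑ ω, W ω = 1 →
    (∀ g, ‖∑ ω, ((W ω - h ω : ℝ) : ℂ) * evg g (p ω)‖ ≤ ε ^ 2) →
    ∀ f : L1 G, (∀ ω, h ω ≠ 0 → fourier f (p ω) = 0) →
      ∑ ω, W ω * ‖fourier f (p ω)‖ ≤ ε * ‖f‖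

-- deps:
/-- the Fejer splitting -/
def S_FEJ : Prop := ∀ (G : Type) [CommGroup G] [TopologicalSpace G] [DiscreteTopology G]
  (M : ℕ), 1 ≤ M → ∀ (f : L1 G) (y r : PontryaginDual G), ∃ F : Fin (M + 2) → L1 G,
    ∑ l, ‖F l‖ ≤ (1 + 1 / (M : ℝ)) * ‖f‖ ∧
    (∀ x, ‖fourier f (x * y)‖ ≤ ∑ l, ‖fourier (F l) x‖ ∧
      ‖fourier f (x * (y * r))‖ ≤ ∑ l, ‖fourier (F l) x‖) ∧
    ∀ l x, ‖fourier (F l) x‖ ≤ ((M : ℝ) + 1) ^ 2 *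
      ∑ d ∈ Finset.Icc (-(M : ℤ)) M, ‖fourier f (x * (y * r ^ d))‖

-- deps:
/-- locally constant interpolation on a finite set -/
def S_INT : Prop := ∀ (G : Type) [CommGroup G] [TopologicalSpace G] [DiscreteTopology G]
  (P : Finset (PontryaginDual G)), ∃ C : ℝ, 0 ≤ C ∧ ∀ v : PontryaginDual G → ℂ, ∃ b : L1 G,
    ‖b‖ ≤ C * ∑ x ∈ P, ‖v x‖ ∧ ∀ x ∈ P, ∀ᶠ γ in 𝓝 x, fourier b γ = v x

-- deps:
/-- placing a block -/
def S_GEO : Prop := ∀ (G : Type) [CommGroup G] [TopologicalSpace G] [DiscreteTopology G]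
  (H : Subgroup (PontryaginDual G)) (ζ : ℂ), ‖ζ‖ = 1 → Lim H ζ → ∀ (s : Sg H) (N : ℕ)
    (B : PontryaginDual G → Finset (Fin N → ℤ)), (∀ x, (B x).Nonempty) → ∀ κ > 0,
    ∃ (a : Fin N → PontryaginDual G) (s' : Sg H) (w : L1 G), ‖w‖ ≤ 1 ∧ s.Ref s' ∧
      (∀ x', x' ∈ s'.P ↔ ∃ x ∈ s.P, ∃ k ∈ B x, x' = x * pw a k) ∧
      ∀ x ∈ s.P, ∀ k ∈ B x, ∀ u ∈ s'.U,
        pw a k * u ∈ s.U ∧ ‖fourier w (x * pw a k * u) - avz ζ k‖ ≤ κ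

-- deps: QA FEJ INT
/-- the mean bounds pass to the next stage -/
def S_KEEP : Prop := ∀ (G : Type) [CommGroup G] [TopologicalSpace G] [DiscreteTopology G]
  (ζ : ℂ) (P : Finset (PontryaginDual G)), ∀ ε > 0, ∃ M : ℕ, 1 ≤ M ∧ ∃ ε' > 0, ∀ N,
    IsBlk ζ M ε' N → ∀ (a : Fin N → PontryaginDual G) (ψ : PontryaginDual G → Bool)
      (P' : Finset (PontryaginDual G)) (D : PontryaginDual G → Prop) (η : ℝ), η ≤ 1 →
      (∀ x ∈ P, ∀ k ∈ BB ζ N M (ψ x), x * pw a k ∈ P' ∧ (D (x * pw a k) ↔ D x)) →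
      Good P D η → Good P' D (η + ε)

-- deps: QA
/-- a new mean bound from a free block -/
def S_NEW : Prop := ∀ (G : Type) [CommGroup G] [TopologicalSpace G] [DiscreteTopology G]
  (ζ : ℂ), ∀ ε > 0, ∃ ε' > 0, ∀ M N, IsBlk ζ M ε' N → ∀ (a : Fin N → PontryaginDual G)
    (x : PontryaginDual G) (P' : Finset (PontryaginDual G)) (D : PontryaginDual G → Prop),
      (∀ k ∈ BB ζ N M true, x * pw a k ∈ P' ∧ D (x * pw a k)) →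
      (∀ k ∈ BB ζ N M false, x * pw a k ∈ P' ∧ ¬ D (x * pw a k)) → Good P' D ε

-- deps: BLK GEO KEEP NEW
/-- one block: separating or free -/
def S_ONE : Prop := ∀ (G : Type) [CommGroup G] [TopologicalSpace G] [DiscreteTopology G]
  (H : Subgroup (PontryaginDual G)) (ζ : ℂ), ‖ζ‖ = 1 → ζ ≠ 1 → Lim H ζ → ∀ (s : Sg H), ∀ ε > 0,
    (∀ ψ : PontryaginDual G → Bool, s.Con ψ → ∃ s' : Sg H, s.Ref s' ∧ s.Keep s' ε ∧ ∃ w : L1 G,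
      ‖w‖ ≤ 1 ∧ s'.Hold fun γ => ‖fourier w γ - mm ζ (ψ γ)‖ ≤ 2 * th ζ) ∧
    ∃ s' : Sg H, s.Ref s' ∧ s.Keep s' ε ∧ ∃ D : PontryaginDual G → Prop, s'.Con D ∧
      Good s'.P D ε

-- deps: ONE INT
/-- one step of the recursion -/
def S_STEP : Prop := ∀ (G : Type) [CommGroup G] [TopologicalSpace G] [DiscreteTopology G]
  (H : Subgroup (PontryaginDual G)) (ζ : ℂ), ‖ζ‖ = 1 → ζ ≠ 1 → Lim H ζ → ∃ C > 0,
    ∀ (s : Sg H) (g : G), ∀ ε > 0, ∃ s' : Sg H, s.Ref s' ∧ s.Keep s' ε ∧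
      (∃ φ : L1 G, ‖φ - ch g‖ ≤ ε ∧ s'.Con (fourier φ)) ∧
      (∃ (D : PontryaginDual G → Prop) (e : L1 G), s'.Con D ∧ Good s'.P D ε ∧
        s'.Hold fun γ => fourier e γ = if D γ then 1 else 0) ∧
      ∀ c : PontryaginDual G → ℝ, (∀ x ∈ s.P, |c x| ≤ 1) → ∃ a : L1 G, ‖a‖ ≤ C ∧
        s'.Hold fun γ => ∀ x ∈ s.P, ∀ y ∈ s.U, γ = x * y → ‖fourier a γ - c x‖ ≤ 1 / 8

-- deps: STEP
/-- the compact set -/
def S_PACK : Prop := ∀ (G : Type) [CommGroup G] [TopologicalSpace G] [DiscreteTopology G]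
  [Infinite G], Nonempty (Pack2 G)

-- deps:
/-- extension with a bound -/
def S_HEL : Prop := ∀ (G : Type) [CommGroup G] [TopologicalSpace G] [DiscreteTopology G]
  (p : Pack2 G) (f : L1 G), ∀ ρ > 0, (∀ γ ∈ p.E, ‖fourier f γ‖ ≤ ρ) →
    ∃ r : L1 G, ‖r‖ ≤ 4 * p.C * ρ ∧ ∀ γ ∈ p.E, fourier r γ = fourier f γ

-- deps:
/-- every continuous function is a restriction -/
def S_SW : Prop := ∀ (G : Type) [CommGroup G] [TopologicalSpace G] [DiscreteTopology G]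
  (E : Set (PontryaginDual G)) (K : ℝ), IsCompact E → 0 < K →
    (∀ f : L1 G, ∀ ρ > 0, (∀ γ ∈ E, ‖fourier f γ‖ ≤ ρ) →
      ∃ r : L1 G, ‖r‖ ≤ K * ρ ∧ ∀ γ ∈ E, fourier r γ = fourier f γ) →
    ∀ F : C(E, ℂ), ∃ f : L1 G, ∀ x : E, fourier f x = F x

-- deps: BAI PACK HEL SW
/-- the theorem -/
def S_MAIN : Prop := ∀ (G : Type) [CommGroup G] [TopologicalSpace G] [DiscreteTopology G]
  [Infinite G], ∃ E : Set (PontryaginDual G), IsCompact E ∧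
    (∀ F : C(E, ℂ), ∃ f : L1 G, ∀ x : E, fourier f x = F x) ∧
    FailsSynthesis fourierChar E ∧ ¬ RadicalAmenable.{0} fourierChar E

end Pool.Agent.P.MP_bf3635_an.N
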