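import Pool.Agent.P.MP_bf3635_an.N.Iface

/-! Step BAI. -/

set_option autoImplicit false

noncomputable section

namespace Pool.Agent.P.MP_bf3635_an.N

open Classical Filter Topology Pool.Agent.P.MP_bf3635_an.Ev

/-- the dual space with zero left action -/
def baiw_mod (A : Type) [NonUnitalNormedRing A] [NormedSpace ℂ A] [IsScalarTower ℂ A A]
    [SMulCommClass ℂ A A] : BanachBimodule A (StrongDual ℂ A) where
  l := 0
  r := (ContinuousLinearMap.compL ℂ A A ℂ).flip.comp (ContinuousLinearMap.mul ℂ A)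
  l_mul := fun _ _ _ => rfl
  r_mul := fun a b x => by
    ext c
    simp [mul_assoc]
  l_r := fun a b x => by simp

theorem p_BAI :
    S_BAI := by
  intro A _ _ _ _ _ h
  obtain ⟨ξ, hξ⟩ := (h _ (baiw_mod A)).inner (NormedSpace.inclusionInDoubleDual ℂ A)
    fun a b x => by simp [baiw_mod]
  have hC : 0 < ‖ξ‖ + 1 := by positivity
  refine ⟨‖ξ‖ + 1, fun r ε hε => ?_⟩
  by_contra hn
  push Not at hn
  have cv : Convex ℝ ((fun x => r * x) '' Metric.closedBall (0 : A) (‖ξ‖ + 1)) :=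
    (convex_closedBall _ _).linear_image
      ((ContinuousLinearMap.mul ℂ A r).restrictScalars ℝ).toLinearMap
  have hr : r ∉ closure ((fun x => r * x) '' Metric.closedBall (0 : A) (‖ξ‖ + 1)) := by
    intro hc
    obtain ⟨_, ⟨x, hx, rfl⟩, h2⟩ := Metric.mem_closure_iff.1 hc ε hε
    rw [dist_eq_norm] at h2
    exact lt_asymm h2 (hn x (mem_closedBall_zero_iff.1 hx))
  obtain ⟨φ, u, h1, h2⟩ :=
    RCLike.geometric_hahn_banach_closed_point (𝕜 := ℂ) cv.closure isClosed_closure hr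
  have h3 : ∀ x : A, ‖x‖ ≤ ‖ξ‖ + 1 → (φ (r * x)).re < u := fun x hx =>
    h1 _ (subset_closure ⟨x, mem_closedBall_zero_iff.2 hx, rfl⟩)
  have u0 : 0 < u := by simpa using h3 0 (by simpa using hC.le)
  have h4 : ‖(baiw_mod A).r r φ‖ ≤ u / (‖ξ‖ + 1) := by
    refine ContinuousLinearMap.opNorm_le_of_unit_norm (by positivity) fun x hx => ?_
    obtain ⟨w, w1, w2⟩ := Complex.exists_norm_eq_mul_self (φ (r * x))
    have h5 := h3 ((((‖ξ‖ + 1 : ℝ) : ℂ) * w) • x) (by
      rw [norm_smul, norm_mul, w1, hx, Complex.norm_real, Real.norm_of_nonneg hC.le]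
      simp)
    rw [mul_smul_comm, map_smul, smul_eq_mul, mul_assoc, ← w2, ← Complex.ofReal_mul,
      Complex.ofReal_re] at h5
    rw [le_div_iff₀' hC]
    exact h5.le
  have h5 : φ r = ξ ((baiw_mod A).r r φ) := by simpa [baiw_mod] using hξ r φ
  have h6 : ‖φ r‖ ≤ ‖ξ‖ * (u / (‖ξ‖ + 1)) := by
    rw [h5]
    exact ξ.le_opNorm_of_le h4
  have h7 : ‖ξ‖ * (u / (‖ξ‖ + 1)) ≤ u := by
    rw [← mul_div_assoc, div_le_iff₀ hC]
    nlinarith
  exact absurd (h2.trans_le (Complex.re_le_norm (φ r))) (not_lt.2 (h6.trans h7))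

end Pool.Agent.P.MP_bf3635_an.N
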