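import Pool.Agent.P.MP_bf3635_an.N.Iface

/-! Step ONE. -/

set_option autoImplicit false

noncomputable section

namespace Pool.Agent.P.MP_bf3635_an.N

open Classical Filter Topology Pool.Agent.P.MP_bf3635_an.Ev

theorem onew_ne {ζ : ℂ} {M N : ℕ} {ε : ℝ} (h : IsBlk ζ M ε N) (e : ε < 1) (b : Bool) :
    (BB ζ N M b).Nonempty := by
  by_contra hn
  have h1 := h.good
  have h2 : ∀ ω ∈ (Finset.univ : Finset (Fin N → Let)),
      ¬ (kd 0 ω ∈ BB ζ N M true ∧ kd 1 ω ∈ BB ζ N M false) :=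
    fun ω _ k => hn (by cases b; exacts [⟨_, k.2⟩, ⟨_, k.1⟩])
  rw [Finset.filter_true_of_mem h2, wt3_sum] at h1
  linarith

theorem onew_tri {ζ v : ℂ} {M N : ℕ} {b : Bool} {k : Fin N → ℤ} (hk : k ∈ BB ζ N M b)
    (h : ‖v - avz ζ k‖ ≤ th ζ) : ‖v - mm ζ b‖ ≤ 2 * th ζ := by
  have := norm_sub_le_norm_sub_add_norm_sub v (avz ζ k) (mm ζ b)
  linarith [(mem_BB.1 hk).2]

theorem onew_far {ζ v : ℂ} (h0 : 0 < th ζ) (h : ‖v - mm ζ false‖ ≤ 2 * th ζ) :
    ¬ ‖v - mm ζ true‖ ≤ 2 * th ζ := fun k => by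
  have h1 := norm_sub_le_norm_sub_add_norm_sub (mm ζ true : ℂ) v (mm ζ false)
  rw [norm_sub_rev _ v, ← Complex.ofReal_sub, Complex.norm_real, Real.norm_eq_abs] at h1
  have h2 := le_abs_self (mm ζ true - mm ζ false)
  have h3 : th ζ = (mm ζ true - mm ζ false) / 32 := rfl
  linarith

theorem p_ONE (hBLK : S_BLK) (hGEO : S_GEO) (hKEEP : S_KEEP) (hNEW : S_NEW) :
    S_ONE := by
  intro G _ _ _ H ζ h1 h2 hL s ε hε
  obtain ⟨M, hM, e1, he1, hK⟩ := hKEEP G ζ s.P ε hε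
  obtain ⟨e2, he2, hN⟩ := hNEW G ζ ε hε
  obtain ⟨N, hB⟩ := hBLK ζ h1 h2 M hM (min (min e1 e2) (1 / 2)) (by positivity)
  have hne := onew_ne hB ((min_le_right _ _).trans_lt (by norm_num))
  have hB1 := hB.mono ((min_le_left _ _).trans (min_le_left _ _))
  have hB2 := hB.mono ((min_le_left _ _).trans (min_le_right _ _))
  have ht := th_pos h1 h2
  have keep : ∀ (ψ : PontryaginDual G → Bool) (a : Fin N → PontryaginDual G) (s' : Sg H),
      (∀ x ∈ s.P, ∀ k ∈ BB ζ N M (ψ x), x * pw a k ∈ s'.P ∧ pw a k * 1 ∈ s.U) →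
      s.Keep s' ε := fun ψ a s' h D η c l g =>
    hK N hB1 a ψ s'.P D η (by linarith) (fun x hx k hk => ⟨(h x hx k hk).1, by
      rw [c x hx _ (by simpa using (h x hx k hk).2)]⟩) g
  refine ⟨fun ψ hψ => ?_, ?_⟩
  · obtain ⟨a, s', w, w1, r, p, q⟩ :=
      hGEO G H ζ h1 hL s N (fun x => BB ζ N M (ψ x)) (fun x => hne _) _ ht
    refine ⟨s', r, keep ψ a s' fun x hx k hk =>
      ⟨(p _).2 ⟨x, hx, k, hk, rfl⟩, (q x hx k hk 1 s'.one).1⟩, w, w1, fun x' hx' u hu => ?_⟩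
    obtain ⟨x, hx, k, hk, rfl⟩ := (p _).1 hx'
    have e : ψ (x * pw a k * u) = ψ x := by rw [mul_assoc, hψ x hx _ (q x hx k hk u hu).1]
    show ‖fourier w (x * pw a k * u) - mm ζ (ψ (x * pw a k * u))‖ ≤ _
    rw [e]
    exact onew_tri hk (q x hx k hk u hu).2
  · obtain ⟨a, s', w, -, r, p, q⟩ := hGEO G H ζ h1 hL s N
      (fun _ => BB ζ N M true ∪ BB ζ N M false) (fun x => (hne true).inl) _ ht
    have d1 : ∀ x ∈ s.P, ∀ k ∈ BB ζ N M true, ∀ u ∈ s'.U,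
        ‖fourier w (x * pw a k * u) - mm ζ true‖ ≤ 2 * th ζ := fun x hx k hk u hu =>
      onew_tri hk (q x hx k (Finset.mem_union_left _ hk) u hu).2
    have d2 : ∀ x ∈ s.P, ∀ k ∈ BB ζ N M false, ∀ u ∈ s'.U,
        ¬ ‖fourier w (x * pw a k * u) - mm ζ true‖ ≤ 2 * th ζ := fun x hx k hk u hu =>
      onew_far ht (onew_tri hk (q x hx k (Finset.mem_union_right _ hk) u hu).2)
    refine ⟨s', r, keep (fun _ => true) a s' fun x hx k hk =>
      ⟨(p _).2 ⟨x, hx, k, Finset.mem_union_left _ hk, rfl⟩,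
        (q x hx k (Finset.mem_union_left _ hk) 1 s'.one).1⟩,
      fun γ => ‖fourier w γ - mm ζ true‖ ≤ 2 * th ζ, fun x' hx' u hu => ?_, ?_⟩
    · obtain ⟨x, hx, k, hk, rfl⟩ := (p _).1 hx'
      rcases Finset.mem_union.1 hk with hk | hk
      · exact propext (iff_of_true (d1 x hx k hk u hu) (by simpa using d1 x hx k hk 1 s'.one))
      · exact propext (iff_of_false (d2 x hx k hk u hu) (by simpa using d2 x hx k hk 1 s'.one))
    · obtain ⟨x, hx⟩ := s.ne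
      exact hN M N hB2 a x s'.P _
        (fun k hk => ⟨(p _).2 ⟨x, hx, k, Finset.mem_union_left _ hk, rfl⟩,
          by simpa using d1 x hx k hk 1 s'.one⟩)
        fun k hk => ⟨(p _).2 ⟨x, hx, k, Finset.mem_union_right _ hk, rfl⟩,
          by simpa using d2 x hx k hk 1 s'.one⟩

end Pool.Agent.P.MP_bf3635_an.N
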